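import Pool.Agent.P.MP_5aa89f_gt.Main

/-!
Further properties of the example: it is separable, its Stone-Cech remainder has at most one point,
and the cover by the basic neighbourhoods has no sigma-locally finite refinement.
-/

set_option autoImplicit false

namespace Pool.Agent.P.MP_5aa89f_gt

open Set Topology Filter OnePoint

theorem separable_X : TopologicalSpace.SeparableSpace X := by
  refine ⟨range lf, countable_range _, fun x => ?_⟩
  rw [mem_closure_iff_nhds_basis (hasBasis_N x)]
  intro k _
  obtain ⟨l, hl⟩ := exists_lf_mem x k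
  exact ⟨lf l, ⟨l, rfl⟩, hl⟩

theorem inj_extend :
    Function.Injective (stoneCechExtend (OnePoint.continuous_coe (X := X))) := fun p p' h => by
  by_contra hne
  obtain ⟨f, hf0, hf1, hf⟩ := exists_continuous_zero_one_of_isClosed
    (isClosed_singleton (x := p)) (isClosed_singleton (x := p')) (disjoint_singleton.2 hne)
  have hg : Continuous (f ∘ stoneCechUnit) := f.continuous.comp continuous_stoneCechUnit
  obtain ⟨r, hr⟩ := exists_limit hg fun x => hf _
  let g' := OnePoint.continuousMapMk ⟨_, hg⟩ r hr
  have heq : g' ∘ stoneCechExtend OnePoint.continuous_coe = f :=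
    denseRange_stoneCechUnit.equalizer (g'.continuous.comp (continuous_stoneCechExtend _))
      f.continuous (by
        funext x
        simp only [Function.comp, stoneCechExtend_stoneCechUnit]
        rfl)
  have h0 := congrFun heq p
  have h1 := congrFun heq p'
  rw [Function.comp, h] at h0
  rw [hf0 rfl] at h0
  rw [hf1 rfl] at h1
  have := h0.symm.trans h1
  simp at this

theorem remainder_subsingleton :
    (range (stoneCechUnit : X → StoneCech X))ᶜ.Subsingleton := by
  have key : ∀ p ∈ (range (stoneCechUnit : X → StoneCech X))ᶜ,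
      stoneCechExtend (OnePoint.continuous_coe (X := X)) p = ∞ := by
    intro p hp
    rcases h : stoneCechExtend (OnePoint.continuous_coe (X := X)) p with _ | x
    · rfl
    · refine absurd ⟨x, inj_extend ?_⟩ hp
      rw [stoneCechExtend_stoneCechUnit, h]
      rfl
  intro p hp p' hp'
  exact inj_extend ((key p hp).trans (key p' hp').symm)

theorem no_locallyFinite (κ : Type) (F : ℕ → κ → Set X) (h1 : ∀ n, LocallyFinite (F n))
    (h3 : ∀ n k, ∃ x, F n k ⊆ N x 0) : (⋃ n, ⋃ k, F n k) ≠ Set.univ := by
  intro h2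
  have : ∀ z : Z, ∃ n k, X.pt z ∈ F n k := fun z => by
    have : X.pt z ∈ ⋃ n, ⋃ k, F n k := h2 ▸ mem_univ _
    simpa using this
  choose n k hnk using this
  obtain ⟨m, hm⟩ : ∃ m, ¬ {z | n z = m}.Countable := by
    by_contra h
    push Not at h
    exact not_countable_Z ((countable_iUnion h).mono fun z _ => mem_iUnion.2 ⟨n z, rfl⟩)
  obtain ⟨S, hS1, hS2, hS3⟩ := exists_injOn hm k fun b => by
    obtain ⟨i, hi⟩ := h3 m b
    refine ((countable_N i 0).preimage pt_inj).mono ?_
    rintro z ⟨rfl, rfl⟩
    exact hi (hnk z)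
  obtain ⟨y, hy⟩ := exists_acc hS2
  obtain ⟨W, hW, hW'⟩ := h1 m (X.pt y)
  obtain ⟨j, -, hj⟩ := (hasBasis_N _).mem_iff.1 hW
  refine hy j (Set.Finite.of_finite_image (hW'.subset ?_) (hS3.mono inter_subset_right))
  rintro _ ⟨a, ha, rfl⟩
  exact ⟨X.pt a, (hS1 ha.2 : n a = m) ▸ hnk a, hj ⟨a, ha.1, rfl⟩⟩

end Pool.Agent.P.MP_5aa89f_gt
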