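import Pool.Agent.P.MP_5aa89f_gt.ZSpace

/-!
A maximal almost disjoint family of closed discrete sets of leaves, glued as in Mrowka's
construction of a Psi-space with a unique compactification.
-/

set_option autoImplicit false

namespace Pool.Agent.P.MP_5aa89f_gt

open Set Topology Filter Cardinal

/-- A set of leaves without accumulation point in `Z`. -/
def LF (a : Set L) : Prop := ∀ z : Z, ∃ k, {l ∈ a | Z.leaf l ∈ U z k}.Finite

theorem LF_of_conv {a : Set L} {c : C} (h : ∀ j, {l ∈ a | ¬ agree j (q l) c}.Finite)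
    (hz : ∀ z, pos z = c → {l ∈ a | Z.leaf l ∈ U z 0}.Finite) : LF a := by
  intro z
  by_cases hc : pos z = c
  · exact ⟨0, hz z hc⟩
  · obtain ⟨j, hj⟩ := exists_not_agree hc
    refine ⟨j, (h j).subset ?_⟩
    rintro l ⟨hl, hl'⟩
    exact ⟨hl, fun h' => hj ((Mem.agree hl').symm.trans h')⟩

theorem LF.biUnion {ι : Type} {I : Set ι} (hI : I.Finite) {a : ι → Set L} (h : ∀ i, LF (a i)) :
    LF (⋃ i ∈ I, a i) := by
  intro z
  choose k hk using fun i => h i z
  obtain ⟨m, hm⟩ := (hI.image k).bddAbove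
  refine ⟨m, (hI.biUnion fun i _ => hk i).subset ?_⟩
  rintro l ⟨hl, hl'⟩
  obtain ⟨i, hi, hl⟩ := mem_iUnion₂.1 hl
  exact mem_iUnion₂.2 ⟨i, hi, hl, U_anti z (hm ⟨i, hi, rfl⟩) hl'⟩

/-- The leaf attached to a binary word. -/
def nu (w : List Bool) : L := Finset.range (Encodable.encode w)

theorem nu_inj : Function.Injective nu := fun _ _ h =>
  Encodable.encode_injective (by simpa [nu] using congrArg Finset.card h)

/-- The set of leaves attached to a branch. -/
def br (x : C) : Set L := range fun n => nu (restr n x)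

theorem br_inj (x : C) : Function.Injective fun n => nu (restr n x) := by
  intro n m h
  have := congrArg List.length (nu_inj h)
  simpa [length_restr] using this

theorem br_infinite (x : C) : (br x).Infinite := infinite_range_of_injective (br_inj x)

theorem LF_br (x : C) : LF (br x) := by
  refine LF_of_conv (c := c0) (fun j => ?_) (fun z hz => absurd hz (pos_ne_c0 z))
  refine ((Set.finite_lt_nat j).image Finset.range).subset ?_
  rintro _ ⟨⟨n, rfl⟩, h⟩
  refine ⟨Encodable.encode (restr n x), ?_, rfl⟩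
  by_contra hj
  apply h
  intro i hi
  have : i < Encodable.encode (restr n x) := hi.trans_le (not_lt.1 hj)
  simp [q, nu, c0, this]

theorem br_ad {x y : C} (h : x ≠ y) : (br x ∩ br y).Finite := by
  obtain ⟨j, hj⟩ := exists_not_agree h
  refine ((Set.finite_lt_nat j).image fun n => nu (restr n x)).subset ?_
  rintro _ ⟨⟨n, rfl⟩, m, hm⟩
  refine ⟨n, ?_, rfl⟩
  have h1 := nu_inj hm
  have h2 : m = n := by simpa [length_restr] using congrArg List.length h1
  subst h2
  by_contra hn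
  exact hj ((restr_eq_iff.1 h1).symm.mono (not_lt.1 hn))

theorem big_of_uncountable {B : Set L} (h : ¬ {x : C | (br x \ B).Finite}.Countable)
    (F : Set C) (hF : #F < 𝔠) : ∃ x ∈ {x : C | (br x \ B).Finite}, x ∉ F := by
  let G : ℕ → Set C := fun m => {x | ∀ n, m ≤ n → nu (restr n x) ∈ B}
  have hG : ∀ m, IsClosed (G m) := by
    intro m
    rw [← isOpen_compl_iff, isOpen_iff_mem_nhds]
    intro x hx
    simp only [G, mem_compl_iff, mem_ofPred_eq, not_forall] at hx
    obtain ⟨n, hn, hx⟩ := hx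
    refine mem_of_superset ((hasBasis_agree x).mem_of_mem (i := n) trivial) fun y hy hy' => ?_
    exact hx (restr_eq_iff.2 hy ▸ hy' n hn)
  obtain ⟨m, hm⟩ : ∃ m, ¬ (G m).Countable := by
    by_contra hc
    push Not at hc
    refine h ((countable_iUnion hc).mono fun x hx => ?_)
    obtain ⟨m, hm⟩ := (Set.Finite.preimage (br_inj x).injOn hx).bddAbove
    refine mem_iUnion.2 ⟨m + 1, fun n hn => ?_⟩
    by_contra hB
    have := hm (show n ∈ (fun n => nu (restr n x)) ⁻¹' (br x \ B) from ⟨⟨n, rfl⟩, hB⟩)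
    omega
  obtain ⟨x, hx, hxF⟩ := closed_uncountable (hG m) hm F hF
  refine ⟨x, ((Set.finite_lt_nat m).image fun n => nu (restr n x)).subset ?_, hxF⟩
  rintro _ ⟨⟨n, rfl⟩, hB⟩
  refine ⟨n, ?_, rfl⟩
  by_contra hn
  exact hB (hx n (not_lt.1 hn))

theorem exists_mad : ∃ D : Set (Set L),
    (∀ a ∈ D, a.Infinite ∧ LF a ∧ ∀ x, (a ∩ br x).Finite) ∧
    D.Pairwise (fun a b => (a ∩ b).Finite) ∧
    ∀ a : Set L, a.Infinite → LF a → (∃ x, (a ∩ br x).Infinite) ∨ ∃ d ∈ D, (a ∩ d).Infinite := by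
  obtain ⟨D, hD⟩ := zorn_subset {D : Set (Set L) |
      (∀ a ∈ D, a.Infinite ∧ LF a ∧ ∀ x, (a ∩ br x).Finite) ∧
      D.Pairwise (fun a b => (a ∩ b).Finite)} (fun c hc hch => by
    refine ⟨⋃₀ c, ⟨?_, ?_⟩, fun s hs => subset_sUnion_of_mem hs⟩
    · rintro a ⟨s, hs, ha⟩
      exact (hc hs).1 a ha
    · rintro a ⟨s, hs, ha⟩ b ⟨t, ht, hb⟩ hab
      rcases hch.total hs ht with h | h
      · exact (hc ht).2 (h ha) hb hab
      · exact (hc hs).2 ha (h hb) hab)
  refine ⟨D, hD.prop.1, hD.prop.2, fun a ha hLF => ?_⟩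
  by_contra hcon
  push Not at hcon
  have hmem : insert a D ∈ {D : Set (Set L) |
      (∀ a ∈ D, a.Infinite ∧ LF a ∧ ∀ x, (a ∩ br x).Finite) ∧
      D.Pairwise (fun a b => (a ∩ b).Finite)} := by
    refine ⟨?_, hD.prop.2.insert fun b hb _ => ⟨hcon.2 b hb, inter_comm a b ▸ hcon.2 b hb⟩⟩
    rintro b (rfl | hb)
    · exact ⟨ha, hLF, hcon.1⟩
    · exact hD.prop.1 b hb
  have haD : a ∈ D := hD.le_of_ge hmem (subset_insert a D) (mem_insert a D)
  exact ha (by simpa using hcon.2 a haD)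

theorem exists_family : ∃ (W : Set C) (A : C → Set L),
    (∀ w ∈ W, (A w).Infinite ∧ LF (A w)) ∧
    (∀ w w', w ≠ w' → (A w ∩ A w').Finite) ∧
    (∀ a : Set L, a.Infinite → LF a → ∃ w ∈ W, (a ∩ A w).Infinite) ∧
    ∀ B₀ B₁ : Set L, ¬ {w ∈ W | (A w \ B₀).Finite}.Countable →
      ¬ {w ∈ W | (A w \ B₁).Finite}.Countable →
      ∃ w ∈ W, (A w ∩ B₀).Infinite ∧ (A w ∩ B₁).Infinite := by
  classical
  obtain ⟨D, hD1, hD2, hD3⟩ := exists_mad
  have hL : #(Set L) = 𝔠 := by
    rw [mk_set, Cardinal.mk_eq_aleph0 L, two_power_aleph0]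
  have hcard : #(D ⊕ (Set L × Set L)) ≤ 𝔠 := by
    rw [mk_sum, mk_prod, lift_id, lift_id, lift_id, hL, continuum_mul_self]
    exact (add_le_add ((mk_set_le D).trans hL.le) le_rfl).trans continuum_add_self.le
  obtain ⟨f, hf1, -, hf3, hf4, hf5⟩ := selection hcard ∅ countable_empty
    (Sum.elim (fun _ => Set.univ)
      (fun τ => {x : C | (br x \ τ.1).Finite} ×ˢ {x : C | (br x \ τ.2).Finite}))
  let base : D ⊕ C → Set L := Sum.elim (fun d => d.1) br
  let o : D ⊕ C → C := Sum.elim (fun d => (f (Sum.inl d)).1)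
    (fun x => if h : ∃ i, (f i).2 = x then (f h.choose).1 else x)
  have ho1 : ∀ i, o (Sum.inr (f i).1) = (f i).1 := by
    intro i
    simp only [o, Sum.elim_inr]
    rw [dif_neg]
    rintro ⟨j, hj⟩
    exact hf3 i j hj.symm
  have ho2 : ∀ i, o (Sum.inr (f i).2) = (f i).1 := by
    intro i
    have h : ∃ j, (f j).2 = (f i).2 := ⟨i, rfl⟩
    simp only [o, Sum.elim_inr]
    rw [dif_pos h, hf5 h.choose_spec]
  have ho3 : ∀ g, o (Sum.inr (o g)) = o g := by
    rintro (d | x)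
    · exact ho1 _
    · by_cases h : ∃ i, (f i).2 = x
      · obtain ⟨i, rfl⟩ := h
        rw [ho2, ho1]
      · have : o (Sum.inr x) = x := by simp only [o, Sum.elim_inr]; rw [dif_neg h]
        rw [this, this]
  have hfib : ∀ w, {g | o g = w}.Finite := by
    intro w
    have h1 : {i | (f i).1 = w}.Finite :=
      Set.Subsingleton.finite fun i hi j hj => hf4 (hi.trans hj.symm)
    have h2 : {d : D | (f (Sum.inl d)).1 = w}.Finite :=
      h1.preimage (f := Sum.inl) Sum.inl_injective.injOn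
    refine (((h2.image Sum.inl).union (h1.image fun i => Sum.inr (f i).2)).insert
      (Sum.inr w)).subset ?_
    rintro (d | x) hg
    · exact Or.inr (Or.inl ⟨d, hg, rfl⟩)
    · by_cases h : ∃ i, (f i).2 = x
      · obtain ⟨i, rfl⟩ := h
        exact Or.inr (Or.inr ⟨i, (ho2 i).symm.trans hg, rfl⟩)
      · have : o (Sum.inr x) = x := by simp only [o, Sum.elim_inr]; rw [dif_neg h]
        exact Or.inl (congrArg Sum.inr (this.symm.trans hg))
  have hbLF : ∀ g, LF (base g) := by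
    rintro (d | x)
    · exact (hD1 d.1 d.2).2.1
    · exact LF_br x
  have hbad : ∀ g g', g ≠ g' → (base g ∩ base g').Finite := by
    rintro (d | x) (d' | x') h
    · exact hD2 d.2 d'.2 fun h' => h (congrArg Sum.inl (Subtype.ext h'))
    · exact (hD1 d.1 d.2).2.2 x'
    · exact inter_comm _ _ ▸ (hD1 d'.1 d'.2).2.2 x
    · exact br_ad fun h' => h (congrArg Sum.inr h')
  let A : C → Set L := fun w => ⋃ g ∈ {g | o g = w}, base g
  have hsub : ∀ g, base g ⊆ A (o g) := fun g l hl => mem_iUnion₂.2 ⟨g, rfl, hl⟩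
  have hbr : ∀ w ∈ range o, br w ⊆ A w := by
    rintro _ ⟨g, rfl⟩
    have := hsub (Sum.inr (o g))
    rwa [ho3] at this
  refine ⟨range o, A, fun w hw => ⟨(br_infinite w).mono (hbr w hw), LF.biUnion (hfib w) hbLF⟩,
    fun w w' hww' => ?_, fun a ha hLF => ?_, fun B₀ B₁ h₀ h₁ => ?_⟩
  · refine ((hfib w).biUnion fun g hg => (hfib w').biUnion fun g' hg' =>
      hbad g g' (fun h => hww' (hg.symm.trans (h ▸ hg')))).subset ?_
    rintro l ⟨h1, h2⟩
    obtain ⟨g, hg, h1⟩ := mem_iUnion₂.1 h1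
    obtain ⟨g', hg', h2⟩ := mem_iUnion₂.1 h2
    exact mem_iUnion₂.2 ⟨g, hg, mem_iUnion₂.2 ⟨g', hg', h1, h2⟩⟩
  · rcases hD3 a ha hLF with ⟨x, hx⟩ | ⟨d, hd, hd'⟩
    · exact ⟨_, ⟨Sum.inr x, rfl⟩, hx.mono (inter_subset_inter_right _ (hsub (Sum.inr x)))⟩
    · exact ⟨_, ⟨Sum.inl ⟨d, hd⟩, rfl⟩,
        hd'.mono (inter_subset_inter_right _ (hsub (Sum.inl ⟨d, hd⟩)))⟩
  · have key : ∀ B : Set L, ¬ {w ∈ range o | (A w \ B).Finite}.Countable →
        ¬ {x : C | (br x \ B).Finite}.Countable := fun B hB h =>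
      hB (h.mono fun w hw => hw.2.subset (sdiff_subset_sdiff_left (hbr w hw.1)))
    have hmem := hf1 (Sum.inr (B₀, B₁))
      (large_prod (big_of_uncountable (key B₀ h₀)) (big_of_uncountable (key B₁ h₁)))
    have hinf : ∀ (x : C) (B : Set L), (br x \ B).Finite → (br x ∩ B).Infinite := by
      intro x B h h'
      exact br_infinite x ((h'.union h).subset (by rw [inter_union_sdiff]))
    refine ⟨(f (Sum.inr (B₀, B₁))).1, ⟨_, ho1 _⟩, ?_, ?_⟩
    · refine (hinf _ _ hmem.1).mono (inter_subset_inter_left _ ?_)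
      have := hsub (Sum.inr (f (Sum.inr (B₀, B₁))).1)
      rwa [ho1] at this
    · refine (hinf _ _ hmem.2).mono (inter_subset_inter_left _ ?_)
      have := hsub (Sum.inr (f (Sum.inr (B₀, B₁))).2)
      rwa [ho2] at this

end Pool.Agent.P.MP_5aa89f_gt
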