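import Pool.Agent.P.MP_5aa89f_gt.XSpace

/-!
The product of `X` with its one-point compactification is subnormal, and `X` is not
subparacompact.
-/

set_option autoImplicit false

namespace Pool.Agent.P.MP_5aa89f_gt

open Set Topology Filter OnePoint

theorem sep_countable {M : Type} [TopologicalSpace M] [T1Space M] {A B S : Set M}
    (hAB : Disjoint A B) (hS : S.Countable) : Sep A B S := by
  refine (sep_biUnion hS (S := fun x => {x}) fun x _ => sep_single isClosed_singleton ?_).mono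
    (by simp)
  by_cases h : x ∈ A
  · exact Or.inr (disjoint_singleton_left.2 (Set.disjoint_left.1 hAB h))
  · exact Or.inl (disjoint_singleton_left.2 h)

/-- Cylinders. -/
def cyl (w : List Bool) : Set Z := {z | restr w.length (pos z) = w}

theorem mem_cyl_restr {j : ℕ} {c : C} {z : Z} : z ∈ cyl (restr j c) ↔ agree j (pos z) c := by
  simp only [cyl, mem_ofPred_eq, length_restr, restr_eq_iff]

theorem isClopen_cyl (w : List Bool) : IsClopen (cyl w) := by
  by_cases h : (cyl w).Nonempty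
  · obtain ⟨z, hz⟩ := h
    have : cyl w = pos ⁻¹' {a | agree w.length a (pos z)} := by
      ext y
      have hz' : restr w.length (pos z) = w := hz
      simp only [cyl, mem_ofPred_eq, mem_preimage, ← restr_eq_iff, hz']
    rw [this]
    exact (isClopen_agree _ _).preimage continuous_pos
  · rw [not_nonempty_iff_eq_empty.1 h]
    exact isClopen_empty

theorem isClosed_of_subset_cap {S : Set X} (hS : S ⊆ range X.cap) : IsClosed S := by
  rw [← isOpen_compl_iff, isOpen_iff_mem_nhds]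
  intro x hx
  obtain ⟨V, hV, hV'⟩ := cap_discrete x
  filter_upwards [hV] with y hy hyS
  have : y = x := hV' ⟨hy, hS hyS⟩
  exact hx (this ▸ hyS)

theorem cases_X (x : X) : x ∈ range lf ∨ x ∈ range X.cap ∨ x ∈ X.pt '' nodes := by
  rcases x with (l | ⟨a, b⟩) | w
  · exact Or.inl ⟨l, rfl⟩
  · exact Or.inr (Or.inr ⟨Z.node a b, fun l h => (by cases h), rfl⟩)
  · exact Or.inr (Or.inl ⟨w, rfl⟩)

theorem isClosed_nodes : IsClosed (X.pt '' nodes) := by
  simpa using isClosed_pt_image isClosed_univ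

/-- The space `X` is subnormal. -/
theorem subX (A B : Set X) (hA : IsClosed A) (hB : IsClosed B) (hAB : Disjoint A B) :
    Sep A B Set.univ := by
  have hM := countable_inter (hA.preimage continuous_pt) (hB.preimage continuous_pt)
    (hAB.preimage _)
  have s1 : Sep A B (range lf) := sep_countable hAB (countable_range _)
  have s2 : Sep A B (range X.cap) :=
    ((sep_single (isClosed_of_subset_cap (S := range X.cap \ A) sdiff_subset)
      (Or.inl disjoint_sdiff_left)).union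
      (sep_single (isClosed_of_subset_cap (S := range X.cap \ B) sdiff_subset)
      (Or.inr disjoint_sdiff_left))).mono fun x hx => by
        by_cases h : x ∈ A
        · exact Or.inr ⟨hx, Set.disjoint_left.1 hAB h⟩
        · exact Or.inl ⟨hx, h⟩
  have s3 := sep_countable hAB ((hM.preimage pos_inj).image X.pt)
  have s4 := sep_biUnion (A := A) (B := B) (Set.to_countable {w : List Bool |
      Disjoint (X.pt '' (cyl w ∩ nodes)) A ∨ Disjoint (X.pt '' (cyl w ∩ nodes)) B})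
    (S := fun w => X.pt '' (cyl w ∩ nodes))
    fun w hw => sep_single (isClosed_pt_image (isClopen_cyl w).isClosed) hw
  refine (((s1.union s2).union s3).union s4).mono fun x _ => ?_
  rcases cases_X x with h | h | ⟨z, hz, rfl⟩
  · exact Or.inl (Or.inl (Or.inl h))
  · exact Or.inl (Or.inl (Or.inr h))
  · have key : ∀ E : Set X, pos z ∉ closure (pos '' (X.pt ⁻¹' E)) →
        ∃ j, Disjoint (X.pt '' (cyl (restr j (pos z)) ∩ nodes)) E := by
      intro E hE
      rw [mem_closure_iff_nhds_basis (hasBasis_agree _)] at hE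
      push Not at hE
      obtain ⟨j, -, hj⟩ := hE
      refine ⟨j, Set.disjoint_left.2 ?_⟩
      rintro _ ⟨y, hy, rfl⟩ hyE
      exact hj _ ⟨y, hyE, rfl⟩ (mem_cyl_restr.1 hy.1)
    by_cases h : pos z ∈ closure (pos '' (X.pt ⁻¹' A)) ∩ closure (pos '' (X.pt ⁻¹' B))
    · exact Or.inl (Or.inr ⟨z, h, rfl⟩)
    · right
      rw [mem_inter_iff, not_and_or] at h
      rcases h with h | h
      · obtain ⟨j, hj⟩ := key A h
        exact mem_iUnion₂.2 ⟨restr j (pos z), Or.inl hj, z,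
          ⟨mem_cyl_restr.2 (agree.refl _ _), hz⟩, rfl⟩
      · obtain ⟨j, hj⟩ := key B h
        exact mem_iUnion₂.2 ⟨restr j (pos z), Or.inr hj, z,
          ⟨mem_cyl_restr.2 (agree.refl _ _), hz⟩, rfl⟩

theorem isOpenEmbedding_pt : IsOpenEmbedding X.pt :=
  IsOpenEmbedding.of_continuous_injective_isOpenMap continuous_pt pt_inj
    fun _ h => isOpen_pt_image h

theorem mem_of_acc {B : Set (X × OnePoint X)} (hB : IsClosed B) {x : X}
    (h : ∀ k, ∀ H : Set X, IsCompact H → ∃ y ∈ N x k, ∃ z ∉ H, (y, (z : OnePoint X)) ∈ B) :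
    (x, ∞) ∈ B := by
  rw [← hB.closure_eq,
    mem_closure_iff_nhds_basis ((hasBasis_N x).prod_nhds hasBasis_nhds_infty)]
  rintro ⟨k, H⟩ ⟨-, -, hH⟩
  obtain ⟨y, hy, z, hz, hyz⟩ := h k H hH
  exact ⟨_, hyz, hy, Or.inl ⟨z, hz, rfl⟩⟩

/-- A closed set over the nodes without points at infinity is contained in the diagonal up to
countably many horizontal lines. -/
theorem countable_offdiag {B : Set (X × OnePoint X)} (hB : IsClosed B)
    (h1 : ∀ p ∈ B, p.1 ∈ X.pt '' nodes) (h2 : ∀ x, (x, ∞) ∉ B) :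
    {z : X | ∃ y, y ≠ z ∧ (y, (z : OnePoint X)) ∈ B}.Countable := by
  by_contra hM
  have hex : ∀ z : X, ∃ y, (∃ y, y ≠ z ∧ (y, (z : OnePoint X)) ∈ B) →
      y ≠ z ∧ (y, (z : OnePoint X)) ∈ B := by
    intro z
    by_cases h : ∃ y, y ≠ z ∧ (y, (z : OnePoint X)) ∈ B
    · obtain ⟨y, hy⟩ := h
      exact ⟨y, fun _ => hy⟩
    · exact ⟨z, fun h' => absurd h' h⟩
  choose y hy using hex
  obtain ⟨S, hS1, hS2, hS3⟩ := exists_injOn hM y fun b => by
    have hcl : IsClosed (Prod.mk b ⁻¹' B) := hB.preimage (by fun_prop)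
    have := (isClosed_iff_of_notMem (s := Prod.mk b ⁻¹' B) (h2 b)).1 hcl
    refine (countable_of_isCompact this.2).mono ?_
    rintro z ⟨hz, rfl⟩
    exact (hy z hz).2
  by_cases hcap : (S ∩ range X.cap).Countable
  · have hT : ¬ {p : Z × Z | X.pt p.2 ∈ S ∧ p.2 ∈ nodes ∧ y (X.pt p.2) = X.pt p.1}.Countable := by
      intro hT
      refine hS2 ((((countable_range lf).union hcap).union
        (hT.image fun p => X.pt p.2)).mono fun z hz => ?_)
      rcases cases_X z with h | h | ⟨b, hb, rfl⟩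
      · exact Or.inl (Or.inl h)
      · exact Or.inl (Or.inr ⟨hz, h⟩)
      · obtain ⟨a, -, ha⟩ := h1 _ (hy _ (hS1 hz)).2
        exact Or.inr ⟨(a, b), ⟨hz, hb, ha.symm⟩, rfl⟩
    obtain ⟨y₀, c, hc, hy₀⟩ := matching_acc hT
      (fun p hp p' hp' h => Prod.ext h (pt_inj (hS3 hp.1 hp'.1 (by rw [hp.2.2, hp'.2.2, h]))))
      (fun p hp p' hp' h => Prod.ext (pt_inj (by rw [← hp.2.2, ← hp'.2.2, h])) h)
      (fun p hp h => (hy _ (hS1 hp.1)).1 (by rw [hp.2.2, h]))
    refine h2 (X.pt y₀) (mem_of_acc hB fun k H hH => ?_)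
    have hcomp : IsCompact (X.pt ⁻¹' (H ∩ X.pt '' nodes)) :=
      (isOpenEmbedding_pt.isInducing.isCompact_preimage_iff
        (inter_subset_right.trans (image_subset_range _ _))).2 (hH.inter_right isClosed_nodes)
    have hcl := (hcomp.image continuous_pos).isClosed.isOpen_compl.mem_nhds
      (show c ∈ _ from fun ⟨z, _, hz⟩ => hc z hz)
    obtain ⟨j, -, hj⟩ := (hasBasis_agree c).mem_iff.1 hcl
    obtain ⟨p, hp, hp1, hp2⟩ := hy₀ (max k j)
    refine ⟨X.pt p.1, ⟨p.1, U_anti _ (le_max_left _ _) hp1, rfl⟩, X.pt p.2, fun h => ?_, ?_⟩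
    · exact hj (hp2.mono (le_max_right _ _)) ⟨p.2, ⟨h, p.2, hp.2.1, rfl⟩, rfl⟩
    · rw [← hp.2.2]
      exact (hy _ (hS1 hp.1)).2
  · have hT : ¬ (X.pt ⁻¹' (y '' (S ∩ range X.cap))).Countable := by
      intro hT
      refine hcap (countable_of_injective_of_countable_image (hS3.mono inter_subset_left)
        ((hT.image X.pt).mono ?_))
      rintro _ ⟨z, hz, rfl⟩
      obtain ⟨a, -, ha⟩ := h1 _ (hy _ (hS1 hz.1)).2
      exact ⟨a, ⟨z, hz, ha.symm⟩, ha⟩
    obtain ⟨y₀, hy₀⟩ := exists_acc hT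
    refine h2 (X.pt y₀) (mem_of_acc hB fun k H hH => ?_)
    by_contra hcon
    push Not at hcon
    refine hy₀ k (((finite_cap_of_isCompact hH).image y).preimage pt_inj.injOn |>.subset ?_)
    rintro a ⟨ha, z, hz, hza⟩
    refine ⟨z, ⟨?_, hz.2⟩, hza⟩
    by_contra hzH
    exact hcon (X.pt a) ⟨a, ha, rfl⟩ z hzH (hza ▸ (hy _ (hS1 hz.1)).2)

theorem sep_piece {A B : Set (X × OnePoint X)} (hA : IsClosed A) (hB : IsClosed B)
    (hAB : Disjoint A B) {D : Set X} (hD : IsClosed D) (hD1 : D ⊆ X.pt '' nodes)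
    (hD2 : ∀ x ∈ D, (x, ∞) ∉ B) : Sep A B (D ×ˢ Set.univ) := by
  have hM := countable_offdiag (B := B ∩ D ×ˢ Set.univ) (hB.inter (hD.prod isClosed_univ))
    (fun p hp => hD1 hp.2.1) (fun x hx => hD2 x hx.2.1 hx.1)
  set M := {z : X | ∃ y, y ≠ z ∧ (y, (z : OnePoint X)) ∈ B ∩ D ×ˢ Set.univ}
  let O : Set X := ⋃ z ∈ M, N z 0
  have hO : O.Countable := hM.biUnion fun z _ => countable_N z 0
  have hO' : IsOpen O := isOpen_biUnion fun z _ => isOpen_N z 0
  have s1 := sep_biUnion (A := A) (B := B) hO (S := fun z => {p | p.2 = (z : OnePoint X)})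
    fun z _ => sep_graph subX (f := fun _ => (z : OnePoint X)) continuous_const hA hB hAB
  have s2 := sep_graph subX continuous_coe hA hB hAB
  have s3 := sep_iUnion (A := A) (B := B) (S := fun w : List Bool =>
      (D ∩ X.pt '' (cyl w ∩ nodes)) ×ˢ ((↑) '' (O ∪ X.pt '' cyl w) : Set (OnePoint X))ᶜ)
    fun w => sep_single ((hD.inter (isClosed_pt_image (isClopen_cyl w).isClosed)).prod
      (isOpen_image_coe.2 (hO'.union (isOpen_pt_image (isClopen_cyl w).isOpen))).isClosed_compl)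
      (Or.inr (Set.disjoint_left.2 (by
        rintro ⟨x, k⟩ ⟨⟨hx, a, ha, rfl⟩, hk⟩ hB'
        induction k using OnePoint.rec with
        | infty => exact hD2 _ hx hB'
        | coe z =>
          by_cases h : X.pt a = z
          · exact hk ⟨z, Or.inr ⟨a, ha.1, h⟩, rfl⟩
          · exact hk ⟨z, Or.inl (mem_iUnion₂.2 ⟨z, ⟨_, h, hB', hx, mem_univ _⟩, mem_N z 0⟩), rfl⟩)))
  refine ((s1.union s2).union s3).mono ?_
  rintro ⟨x, k⟩ ⟨hx, -⟩
  obtain ⟨a, ha, rfl⟩ := hD1 hx
  have hmem : ∀ j, X.pt a ∈ D ∩ X.pt '' (cyl (restr j (pos a)) ∩ nodes) := fun j =>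
    ⟨hx, a, ⟨mem_cyl_restr.2 (agree.refl _ _), ha⟩, rfl⟩
  induction k using OnePoint.rec with
  | infty => exact Or.inr (mem_iUnion.2 ⟨_, hmem 0, infty_notMem_image_coe⟩)
  | coe z =>
    by_cases h1 : z ∈ O
    · exact Or.inl (Or.inl (mem_iUnion₂.2 ⟨z, h1, rfl⟩))
    by_cases h2 : z = X.pt a
    · exact Or.inl (Or.inr (congrArg _ h2))
    right
    cases z with
    | cap w =>
      refine mem_iUnion.2 ⟨_, hmem 0, ?_⟩
      rintro ⟨z, hz | ⟨b, -, rfl⟩, h⟩
      · exact h1 (coe_injective h ▸ hz)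
      · cases coe_injective h
    | pt b =>
      obtain ⟨j, hj⟩ := exists_not_agree fun h => h2 (congrArg X.pt (pos_inj h))
      refine mem_iUnion.2 ⟨_, hmem j, ?_⟩
      rintro ⟨z, hz | ⟨b', hb', rfl⟩, h⟩
      · exact h1 (coe_injective h ▸ hz)
      · rw [pt_inj (coe_injective h)] at hb'
        exact hj (mem_cyl_restr.1 hb')

theorem sep_prod {A B : Set (X × OnePoint X)} (hA : IsClosed A) (hB : IsClosed B)
    (hAB : Disjoint A B) : Sep A B Set.univ := by
  have s1 := sep_iUnion (A := A) (B := B) (S := fun l : L => {lf l} ×ˢ Set.univ)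
    fun l => sep_discrete (fun x => by
      by_cases h : x = lf l
      · exact ⟨Set.univ, univ_mem, by simp [h]⟩
      · exact ⟨{lf l}ᶜ, compl_singleton_mem_nhds h, by simp⟩) hA hB hAB
  have s2 := sep_discrete cap_discrete hA hB hAB
  have hc : Continuous fun x : X => (x, (∞ : OnePoint X)) := by fun_prop
  obtain ⟨𝒞, h1, h2, h3⟩ := subX _ _ (hA.preimage hc) (hB.preimage hc) (hAB.preimage _)
  have s3 := sep_biUnion (A := A) (B := B) h1
    (S := fun D => (D ∩ X.pt '' nodes) ×ˢ Set.univ) fun D hD => by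
      rcases (h2 D hD).2 with h | h
      · exact (sep_piece hB hA hAB.symm ((h2 D hD).1.inter isClosed_nodes) inter_subset_right
          fun x hx => Set.disjoint_left.1 h hx.1).symm
      · exact sep_piece hA hB hAB ((h2 D hD).1.inter isClosed_nodes) inter_subset_right
          fun x hx => Set.disjoint_left.1 h hx.1
  refine ((s1.union s2).union s3).mono fun p _ => ?_
  rcases cases_X p.1 with ⟨l, hl⟩ | h | h
  · exact Or.inl (Or.inl (mem_iUnion.2 ⟨l, hl.symm, mem_univ _⟩))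
  · exact Or.inl (Or.inr ⟨h, mem_univ _⟩)
  · obtain ⟨D, hD, hp⟩ := h3 (mem_univ p.1)
    exact Or.inr (mem_iUnion₂.2 ⟨D, hD, ⟨hp, h⟩, mem_univ _⟩)

theorem subnormal_prod (A B : Set (X × StoneCech X)) (hA : IsClosed A) (hB : IsClosed B)
    (hAB : Disjoint A B) :
    ∃ U V : Set (X × StoneCech X), IsGδ U ∧ IsGδ V ∧ A ⊆ U ∧ B ⊆ V ∧ Disjoint U V := by
  obtain ⟨π, hπ, hπ'⟩ := exists_inj_stoneCech
  have hcl : IsClosedEmbedding π := hπ.isClosedEmbedding hπ'
  have hφ : IsClosedEmbedding (Prod.map (id : X → X) π) := by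
    refine ⟨IsEmbedding.id.prodMap hcl.isEmbedding, ?_⟩
    rw [range_prodMap, range_id]
    exact isClosed_univ.prod hcl.isClosed_range
  obtain ⟨U, V, hU, hV, hAU, hBV, hUV⟩ := (sep_prod (hφ.isClosedMap _ hA) (hφ.isClosedMap _ hB)
    ((disjoint_image_iff hφ.injective).2 hAB)).gdelta
  exact ⟨_, _, hU.preimage hφ.continuous, hV.preimage hφ.continuous,
    image_subset_iff.1 hAU, image_subset_iff.1 hBV, hUV.preimage _⟩

theorem not_subparacompact : ¬ ∃ (κ : Type) (F : ℕ → κ → Set X),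
    (∀ n, ∀ x : X, ∃ W ∈ nhds x, Set.Subsingleton {k : κ | (W ∩ F n k).Nonempty}) ∧
    (⋃ n, ⋃ k, F n k) = Set.univ ∧ (∀ n k, ∃ i, F n k ⊆ N i 0) := by
  rintro ⟨κ, F, h1, h2, h3⟩
  have : ∀ z : Z, ∃ n k, X.pt z ∈ F n k := fun z => by
    have : X.pt z ∈ ⋃ n, ⋃ k, F n k := h2 ▸ mem_univ _
    simpa using this
  choose n k hnk using this
  obtain ⟨m, hm⟩ : ∃ m, ¬ {z | n z = m}.Countable := by
    by_contra h
    push Not at h
    exact not_countable_Z ((countable_iUnion h).mono fun z _ => mem_iUnion.2 ⟨n z, rfl⟩)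
  obtain ⟨S, hS1, hS2, hS3⟩ := exists_injOn hm k fun b => by
    obtain ⟨i, hi⟩ := h3 m b
    refine ((countable_N i 0).preimage pt_inj).mono ?_
    rintro z ⟨rfl, rfl⟩
    exact hi (hnk z)
  obtain ⟨y, hy⟩ := exists_acc hS2
  obtain ⟨W, hW, hW'⟩ := h1 m (X.pt y)
  obtain ⟨j, -, hj⟩ := (hasBasis_N _).mem_iff.1 hW
  obtain ⟨a, ha, b, hb, hab⟩ := (hy j).nontrivial
  have key : ∀ a ∈ U y j ∩ S, k a ∈ {k : κ | (W ∩ F m k).Nonempty} := fun a ha =>
    ⟨X.pt a, hj ⟨a, ha.1, rfl⟩, (hS1 ha.2 : n a = m) ▸ hnk a⟩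
  exact hab (hS3 ha.2 hb.2 (hW' (key a ha) (key b hb)))

end Pool.Agent.P.MP_5aa89f_gt
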