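import Mathlib

/-!
Preliminaries: selection lemma, Cantor scheme, countable closed covers.
-/

set_option autoImplicit false

namespace Pool.Agent.P.MP_5aa89f_gt

open Set Topology Filter Cardinal

/-- The Cantor set. -/
abbrev C : Type := ℕ → Bool

/-- Agreement of the first `j` digits. -/
def agree (j : ℕ) (a b : C) : Prop := ∀ i < j, a i = b i

theorem agree.refl (j : ℕ) (a : C) : agree j a a := fun _ _ => rfl

theorem agree.symm {j : ℕ} {a b : C} (h : agree j a b) : agree j b a :=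
  fun i hi => (h i hi).symm

theorem agree.trans {j : ℕ} {a b c : C} (h : agree j a b) (h' : agree j b c) : agree j a c :=
  fun i hi => (h i hi).trans (h' i hi)

theorem agree.mono {j k : ℕ} {a b : C} (h : agree j a b) (hk : k ≤ j) : agree k a b :=
  fun i hi => h i (hi.trans_le hk)

theorem isClopen_agree (j : ℕ) (b : C) : IsClopen {a | agree j a b} := by
  have : {a | agree j a b} = ⋂ i ∈ Finset.range j, (fun a : C => a i) ⁻¹' {b i} := by
    ext a; simp [agree]
  rw [this]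
  exact isClopen_biInter_finset fun i _ => (isClopen_discrete _).preimage (continuous_apply i)

theorem hasBasis_agree (b : C) : (𝓝 b).HasBasis (fun _ : ℕ => True) (fun j => {a | agree j a b}) := by
  refine ⟨fun s => ⟨fun hs => ?_, fun ⟨j, _, hj⟩ =>
    mem_of_superset ((isClopen_agree j b).isOpen.mem_nhds (agree.refl j b)) hj⟩⟩
  rw [nhds_pi, Filter.mem_pi] at hs
  obtain ⟨I, hI, t, ht, hs⟩ := hs
  obtain ⟨j, hj⟩ := hI.bddAbove
  refine ⟨j + 1, trivial, fun a ha => hs fun i hi => ?_⟩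
  rw [ha i (Nat.lt_succ_of_le (hj hi))]
  exact mem_of_mem_nhds (ht i)

theorem exists_not_agree {a b : C} (h : a ≠ b) : ∃ j, ¬ agree j a b := by
  obtain ⟨i, hi⟩ := Function.ne_iff.1 h
  exact ⟨i + 1, fun h' => hi (h' i (Nat.lt_succ_self i))⟩

theorem mem_closure_pair {S : Set (C × C)} {p : C × C} :
    p ∈ closure S ↔ ∀ j, ∃ s ∈ S, agree j s.1 p.1 ∧ agree j s.2 p.2 := by
  rw [mem_closure_iff_nhds_basis (((hasBasis_agree p.1).prod_nhds (hasBasis_agree p.2)))]
  constructor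
  · intro h j
    obtain ⟨s, hs, h1, h2⟩ := h (j, j) ⟨trivial, trivial⟩
    exact ⟨s, hs, h1, h2⟩
  · rintro h ⟨j, k⟩ -
    obtain ⟨s, hs, h1, h2⟩ := h (max j k)
    exact ⟨s, hs, agree.mono h1 (le_max_left _ _), agree.mono h2 (le_max_right _ _)⟩

theorem mk_C : #C = 𝔠 := by simp

theorem exists_notMem_of_lt {F : Set C} (hF : #F < 𝔠) : ∃ x, x ∉ F := by
  by_contra h
  push Not at h
  have : F = Set.univ := eq_univ_of_forall h
  rw [this, mk_univ, mk_C] at hF
  exact lt_irrefl _ hF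

theorem lt_continuum_union {F G : Set C} (hF : #F < 𝔠) (hG : #G < 𝔠) : #(F ∪ G : Set C) < 𝔠 :=
  (mk_union_le F G).trans_lt (add_lt_of_lt aleph0_le_continuum hF hG)

theorem lt_continuum_of_countable {F : Set C} (hF : F.Countable) : #F < 𝔠 :=
  (le_aleph0_iff_set_countable.2 hF).trans_lt aleph0_lt_continuum

/-- A set of pairs is large if it is not covered by fewer than continuum many lines and the
diagonal. -/
def Large (P : Set (C × C)) : Prop :=
  ∀ F : Set C, #F < 𝔠 → ∃ p ∈ P, p.1 ∉ F ∧ p.2 ∉ F ∧ p.1 ≠ p.2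

theorem Large.mono {P Q : Set (C × C)} (h : Large P) (hPQ : P ⊆ Q) : Large Q := by
  intro F hF
  obtain ⟨p, hp, h'⟩ := h F hF
  exact ⟨p, hPQ hp, h'⟩

theorem large_prod {A B : Set C} (hA : ∀ F : Set C, #F < 𝔠 → ∃ x ∈ A, x ∉ F)
    (hB : ∀ F : Set C, #F < 𝔠 → ∃ x ∈ B, x ∉ F) : Large (A ×ˢ B) := by
  intro F hF
  obtain ⟨x, hx, hxF⟩ := hA F hF
  obtain ⟨y, hy, hyF⟩ := hB (F ∪ {x})
    (lt_continuum_union hF (lt_continuum_of_countable (countable_singleton x)))
  exact ⟨(x, y), ⟨hx, hy⟩, hxF, fun h => hyF (Or.inl h), fun h => hyF (Or.inr h.symm)⟩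

theorem large_univ : Large Set.univ := by
  rw [← univ_prod_univ]
  refine large_prod (fun F hF => ?_) (fun F hF => ?_) <;>
  · obtain ⟨x, hx⟩ := exists_notMem_of_lt hF
    exact ⟨x, mem_univ _, hx⟩

/-- The selection lemma. -/
theorem selection {I : Type} (hI : #I ≤ 𝔠) (F₀ : Set C) (hF₀ : F₀.Countable)
    (P : I → Set (C × C)) :
    ∃ f : I → C × C, (∀ i, Large (P i) → f i ∈ P i) ∧ (∀ i, (f i).1 ∉ F₀ ∧ (f i).2 ∉ F₀) ∧
      (∀ i j, (f i).1 ≠ (f j).2) ∧ Function.Injective (fun i => (f i).1) ∧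
      Function.Injective (fun i => (f i).2) := by
  classical
  let P' : I → Set (C × C) := fun i => if Large (P i) then P i else Set.univ
  have hP' : ∀ i, Large (P' i) := by
    intro i
    simp only [P']
    split_ifs with h
    · exact h
    · exact large_univ
  obtain ⟨e⟩ : Nonempty (I ↪ (𝔠 : Cardinal.{0}).ord.ToType) := by
    rw [← Cardinal.le_def, mk_ord_toType]; exact hI
  let r : I → I → Prop := fun j i => e j < e i
  have wf : WellFounded r := InvImage.wf e wellFounded_lt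
  have hsmall : ∀ i, #{j // r j i} < 𝔠 := by
    intro i
    have h0 : #(Iio (e i)) < #((𝔠 : Cardinal.{0}).ord.ToType) := Cardinal.mk_Iio_lt _ (by simp)
    rw [mk_ord_toType] at h0
    refine lt_of_le_of_lt ?_ h0
    exact mk_le_of_injective (f := fun j : {j // r j i} => (⟨e j.1, j.2⟩ : Iio (e i)))
      (fun a b h => Subtype.ext (e.injective (congrArg Subtype.val h)))
  have hF : ∀ i (g : {j // r j i} → C × C),
      #(F₀ ∪ range (fun j => (g j).1) ∪ range (fun j => (g j).2) : Set C) < 𝔠 := fun i g =>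
    lt_continuum_union (lt_continuum_union (lt_continuum_of_countable hF₀)
      (mk_range_le.trans_lt (hsmall i))) (mk_range_le.trans_lt (hsmall i))
  let step : ∀ i, (∀ j, r j i → C × C) → C × C := fun i g =>
    (hP' i _ (hF i (fun j => g j.1 j.2))).choose
  let f : I → C × C := wf.fix step
  have hf : ∀ i, f i = step i (fun j _ => f j) := fun i => wf.fix_eq step i
  have hspec : ∀ i, f i ∈ P' i ∧
      (f i).1 ∉ (F₀ ∪ range (fun j : {j // r j i} => (f j.1).1) ∪
        range (fun j : {j // r j i} => (f j.1).2) : Set C) ∧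
      (f i).2 ∉ (F₀ ∪ range (fun j : {j // r j i} => (f j.1).1) ∪
        range (fun j : {j // r j i} => (f j.1).2) : Set C) ∧ (f i).1 ≠ (f i).2 := by
    intro i
    have := (hP' i _ (hF i (fun j => f j.1))).choose_spec
    rw [hf i]
    exact this
  have htri : ∀ i j, i ≠ j → r i j ∨ r j i := fun i j h =>
    lt_or_gt_of_ne (e.injective.ne h)
  refine ⟨f, fun i hi => ?_, fun i => ⟨fun h => (hspec i).2.1 (Or.inl (Or.inl h)),
    fun h => (hspec i).2.2.1 (Or.inl (Or.inl h))⟩, fun i j h => ?_, fun i j h => ?_,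
    fun i j h => ?_⟩
  · have := (hspec i).1
    simp only [P', if_pos hi] at this
    exact this
  · by_cases hij : i = j
    · subst hij; exact (hspec i).2.2.2 h
    · rcases htri i j hij with h' | h'
      · exact (hspec j).2.2.1 (Or.inl (Or.inr ⟨⟨i, h'⟩, h⟩))
      · exact (hspec i).2.1 (Or.inr ⟨⟨j, h'⟩, h.symm⟩)
  · by_contra hij
    rcases htri i j hij with h' | h'
    · exact (hspec j).2.1 (Or.inl (Or.inr ⟨⟨i, h'⟩, h⟩))
    · exact (hspec i).2.1 (Or.inl (Or.inr ⟨⟨j, h'⟩, h.symm⟩))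
  · by_contra hij
    rcases htri i j hij with h' | h'
    · exact (hspec j).2.2.1 (Or.inr ⟨⟨i, h'⟩, h⟩)
    · exact (hspec i).2.2.1 (Or.inr ⟨⟨j, h'⟩, h.symm⟩)

theorem exists_notMem_of_inj {φ : C → C} (hφ : Function.Injective φ) {F : Set C} (hF : #F < 𝔠) :
    #(φ ⁻¹' F) < 𝔠 :=
  (mk_preimage_of_injective φ F hφ).trans_lt hF

theorem closed_uncountable {A : Set C} (hA : IsClosed A) (hA' : ¬ A.Countable) (F : Set C)
    (hF : #F < 𝔠) : ∃ x ∈ A, x ∉ F := by
  have : PolishSpace C := ⟨⟩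
  obtain ⟨φ, h1, _, h3⟩ := hA.exists_nat_bool_injection_of_not_countable hA'
  obtain ⟨γ, hγ⟩ := exists_notMem_of_lt (exists_notMem_of_inj h3 hF)
  exact ⟨φ γ, h1 ⟨γ, rfl⟩, hγ⟩

/-- The first `j` digits. -/
def restr (j : ℕ) (a : C) : List Bool := (List.range j).map a

theorem restr_eq_iff {j : ℕ} {a b : C} : restr j a = restr j b ↔ agree j a b := by
  simp [restr, agree]

theorem length_restr (j : ℕ) (a : C) : (restr j a).length = j := by simp [restr]

/-- The closure of an uncountable matching off the diagonal is large. -/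
theorem large_closure {T : Set (C × C)} (hT : ¬ T.Countable) (h1 : InjOn Prod.fst T)
    (h2 : InjOn Prod.snd T) (h3 : ∀ p ∈ T, p.1 ≠ p.2) : Large (closure T) := by
  -- pass to a fixed coordinate of disagreement
  obtain ⟨i₀, hi₀⟩ : ∃ i, ¬ {p ∈ T | p.1 i ≠ p.2 i}.Countable := by
    by_contra h
    push Not at h
    refine hT ((countable_iUnion h).mono fun p hp => ?_)
    obtain ⟨i, hi⟩ := Function.ne_iff.1 (h3 p hp)
    exact mem_iUnion.2 ⟨i, hp, hi⟩
  set S := {p ∈ T | p.1 i₀ ≠ p.2 i₀} with hS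
  let cls : C × C → ℕ → Set (C × C) := fun p k => {p' ∈ S | agree k p'.1 p.1 ∧ agree k p'.2 p.2}
  let S' : Set (C × C) := {p ∈ S | ∀ k, ¬ (cls p k).Countable}
  have hdiff : (S \ S').Countable := by
    let cls' : List Bool × List Bool → Set (C × C) := fun w =>
      {p' ∈ S | restr w.1.length p'.1 = w.1 ∧ restr w.1.length p'.2 = w.2}
    have hc : (⋃ w ∈ {w | (cls' w).Countable}, cls' w).Countable :=
      (Set.to_countable _).biUnion fun w hw => hw
    refine hc.mono ?_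
    rintro p ⟨hp, hp'⟩
    simp only [S', mem_ofPred_eq, not_and, not_forall, not_not] at hp'
    obtain ⟨k, hk⟩ := hp' hp
    refine mem_iUnion₂.2 ⟨(restr k p.1, restr k p.2), ?_, hp, ?_⟩
    · refine hk.mono ?_
      rintro p' ⟨hp1, hp2, hp3⟩
      simp only [length_restr] at hp2 hp3
      exact ⟨hp1, restr_eq_iff.1 hp2, restr_eq_iff.1 hp3⟩
    · simp only [length_restr, and_self]
  have hstep : ∀ s : S' × ℕ, ∃ t : Bool → S' × ℕ,
      (∀ b, agree s.2 (t b).1.1.1 s.1.1.1 ∧ agree s.2 (t b).1.1.2 s.1.1.2 ∧ s.2 < (t b).2) ∧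
      (t true).2 = (t false).2 ∧ ¬ agree (t true).2 (t true).1.1.1 (t false).1.1.1 ∧
      ¬ agree (t true).2 (t true).1.1.2 (t false).1.1.2 := by
    rintro ⟨⟨p, hp⟩, k⟩
    have hu : ¬ (cls p k ∩ S').Countable := by
      intro h
      refine hp.2 k ((h.union hdiff).mono fun x hx => ?_)
      by_cases hx' : x ∈ S'
      · exact Or.inl ⟨hx, hx'⟩
      · exact Or.inr ⟨hx.1, hx'⟩
    have hnt : (cls p k ∩ S').Nontrivial := by
      by_contra h
      exact hu (not_nontrivial_iff.1 h).countable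
    obtain ⟨a, ha, b, hb, hab⟩ := hnt
    obtain ⟨j₁, hj₁⟩ := exists_not_agree (fun h => hab (h1 ha.1.1.1 hb.1.1.1 h))
    obtain ⟨j₂, hj₂⟩ := exists_not_agree (fun h => hab (h2 ha.1.1.1 hb.1.1.1 h))
    refine ⟨fun c => (if c then ⟨a, ha.2⟩ else ⟨b, hb.2⟩, max (k + 1) (max j₁ j₂)),
      fun c => ?_, rfl, fun h => hj₁ (h.mono (by simp)), fun h => hj₂ (h.mono (by simp))⟩
    cases c
    · exact ⟨hb.1.2.1, hb.1.2.2, by simp⟩
    · exact ⟨ha.1.2.1, ha.1.2.2, by simp⟩
  choose next hn1 hn2 hn3 hn4 using hstep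
  obtain ⟨p₀, hp₀⟩ : S'.Nonempty := by
    by_contra h
    rw [not_nonempty_iff_eq_empty] at h
    rw [h, sdiff_empty] at hdiff
    exact hi₀ hdiff
  let seq : C → ℕ → S' × ℕ := fun γ n => Nat.rec (⟨p₀, hp₀⟩, 0) (fun n s => next s (γ n)) n
  have hseq : ∀ γ n, seq γ (n + 1) = next (seq γ n) (γ n) := fun _ _ => rfl
  have hk : ∀ γ n, n ≤ (seq γ n).2 := by
    intro γ n
    induction n with
    | zero => exact Nat.zero_le _
    | succ n ih => rw [hseq]; exact Nat.succ_le_of_lt (ih.trans_lt (hn1 _ _).2.2)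
  have hch : ∀ γ n m, n ≤ m → (seq γ n).2 ≤ (seq γ m).2 ∧
      agree (seq γ n).2 (seq γ m).1.1.1 (seq γ n).1.1.1 ∧
      agree (seq γ n).2 (seq γ m).1.1.2 (seq γ n).1.1.2 := by
    intro γ n m hnm
    induction m, hnm using Nat.le_induction with
    | base => exact ⟨le_rfl, agree.refl _ _, agree.refl _ _⟩
    | succ m _ ih =>
      rw [hseq]
      obtain ⟨a1, a2, a3⟩ := hn1 (seq γ m) (γ m)
      exact ⟨ih.1.trans a3.le, (a1.mono ih.1).trans ih.2.1, (a2.mono ih.1).trans ih.2.2⟩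
  let Φ : C → C × C := fun γ =>
    (fun i => (seq γ (i + 1)).1.1.1 i, fun i => (seq γ (i + 1)).1.1.2 i)
  have hΦ : ∀ γ n, agree (seq γ n).2 (Φ γ).1 (seq γ n).1.1.1 ∧
      agree (seq γ n).2 (Φ γ).2 (seq γ n).1.1.2 := by
    intro γ n
    have key : ∀ i < (seq γ n).2, (seq γ (i + 1)).1.1.1 i = (seq γ n).1.1.1 i ∧
        (seq γ (i + 1)).1.1.2 i = (seq γ n).1.1.2 i := by
      intro i hi
      rcases le_total n (i + 1) with h | h
      · exact ⟨(hch γ n _ h).2.1 i hi, (hch γ n _ h).2.2 i hi⟩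
      · have hi' : i < (seq γ (i + 1)).2 := hk γ (i + 1)
        exact ⟨((hch γ _ n h).2.1 i hi').symm, ((hch γ _ n h).2.2 i hi').symm⟩
    exact ⟨fun i hi => (key i hi).1, fun i hi => (key i hi).2⟩
  have hinj : ∀ γ γ', γ ≠ γ' → (Φ γ).1 ≠ (Φ γ').1 ∧ (Φ γ).2 ≠ (Φ γ').2 := by
    intro γ γ' hne
    classical
    have hex : ∃ i, γ i ≠ γ' i := Function.ne_iff.1 hne
    let n := Nat.find hex
    have hn : γ n ≠ γ' n := Nat.find_spec hex
    have heq : ∀ m ≤ n, seq γ m = seq γ' m := by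
      intro m hm
      induction m with
      | zero => rfl
      | succ m ih =>
        rw [hseq, hseq, ih (Nat.le_of_succ_le hm)]
        have : γ m = γ' m := by
          by_contra h
          exact Nat.find_min hex (Nat.lt_of_succ_le hm) h
        rw [this]
    have e1 := hΦ γ (n + 1)
    have e2 := hΦ γ' (n + 1)
    rw [hseq] at e1 e2
    rw [← heq n le_rfl] at e2
    have a2 := hn2 (seq γ n)
    have a3 := hn3 (seq γ n)
    have a4 := hn4 (seq γ n)
    cases hγ : γ n <;> cases hγ' : γ' n <;> simp only [hγ, hγ'] at hn e1 e2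
    · exact absurd rfl hn
    · rw [← a2] at e1
      exact ⟨fun h => a3 (e2.1.symm.trans (h ▸ e1.1)), fun h => a4 (e2.2.symm.trans (h ▸ e1.2))⟩
    · rw [← a2] at e2
      exact ⟨fun h => a3 (e1.1.symm.trans (h ▸ e2.1)), fun h => a4 (e1.2.symm.trans (h ▸ e2.2))⟩
    · exact absurd rfl hn
  intro F hF
  have i1 : Function.Injective (fun γ => (Φ γ).1) := fun γ γ' h => by
    by_contra hne; exact (hinj γ γ' hne).1 h
  have i2 : Function.Injective (fun γ => (Φ γ).2) := fun γ γ' h => by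
    by_contra hne; exact (hinj γ γ' hne).2 h
  obtain ⟨γ, hγ⟩ := exists_notMem_of_lt
    (lt_continuum_union (exists_notMem_of_inj i1 hF) (exists_notMem_of_inj i2 hF))
  refine ⟨Φ γ, mem_closure_pair.2 fun j => ⟨(seq γ j).1.1, (seq γ j).1.2.1.1,
    ((hΦ γ j).1.mono (hk γ j)).symm, ((hΦ γ j).2.mono (hk γ j)).symm⟩,
    fun h => hγ (Or.inl h), fun h => hγ (Or.inr h), fun h => ?_⟩
  exact (seq γ (i₀ + 1)).1.2.1.2 (congrFun h i₀)

/-- A dense sequence. -/
theorem exists_dense_seq' {W : Type} (φ : W → C × C) {S : Set W} (hS : S.Nonempty) :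
    ∃ σ : ℕ → W, (∀ n, σ n ∈ S) ∧ φ '' S ⊆ closure (range (φ ∘ σ)) := by
  obtain ⟨t, hts, htc, hst⟩ :=
    (TopologicalSpace.IsSeparable.of_separableSpace (φ '' S)).exists_countable_dense_subset
  have htne : t.Nonempty := by
    by_contra h
    rw [not_nonempty_iff_eq_empty] at h
    obtain ⟨w, hw⟩ := hS
    have := hst ⟨w, hw, rfl⟩
    rw [h, closure_empty] at this
    exact this
  obtain ⟨g, rfl⟩ := htc.exists_eq_range htne
  choose σ hσ hσ' using fun n => hts (mem_range_self n)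
  refine ⟨σ, hσ, hst.trans (closure_mono ?_)⟩
  rintro _ ⟨n, rfl⟩
  exact ⟨n, hσ' n⟩

/-- A map with countable fibres is injective on an uncountable subset. -/
theorem exists_injOn {α β : Type} {S : Set α} (hS : ¬ S.Countable) (f : α → β)
    (hf : ∀ b, {a ∈ S | f a = b}.Countable) : ∃ S' ⊆ S, ¬ S'.Countable ∧ InjOn f S' := by
  obtain ⟨S', h1, h2⟩ := exists_subset_bijOn S f
  refine ⟨S', h1, fun h => hS ?_, h2.injOn⟩
  have hc : (f '' S).Countable := h2.image_eq ▸ h.image f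
  refine (hc.biUnion fun b _ => hf b).mono fun a ha => ?_
  exact mem_iUnion₂.2 ⟨f a, ⟨a, ha, rfl⟩, ha, rfl⟩

section Sep

variable {M : Type} [TopologicalSpace M]

/-- `S` is covered by countably many closed sets each missing `A` or `B`. -/
def Sep (A B S : Set M) : Prop :=
  ∃ 𝒞 : Set (Set M), 𝒞.Countable ∧ (∀ D ∈ 𝒞, IsClosed D ∧ (Disjoint D A ∨ Disjoint D B)) ∧
    S ⊆ ⋃₀ 𝒞

theorem Sep.mono {A B S S' : Set M} (h : Sep A B S) (hS : S' ⊆ S) : Sep A B S' := by
  obtain ⟨𝒞, h1, h2, h3⟩ := h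
  exact ⟨𝒞, h1, h2, hS.trans h3⟩

theorem Sep.symm {A B S : Set M} (h : Sep A B S) : Sep B A S := by
  obtain ⟨𝒞, h1, h2, h3⟩ := h
  exact ⟨𝒞, h1, fun D hD => ⟨(h2 D hD).1, (h2 D hD).2.symm⟩, h3⟩

theorem sep_single {A B D : Set M} (hD : IsClosed D) (h : Disjoint D A ∨ Disjoint D B) :
    Sep A B D :=
  ⟨{D}, countable_singleton D, by rintro _ rfl; exact ⟨hD, h⟩, by simp⟩

theorem sep_biUnion {ι : Type} {A B : Set M} {I : Set ι} (hI : I.Countable) {S : ι → Set M}
    (h : ∀ i ∈ I, Sep A B (S i)) : Sep A B (⋃ i ∈ I, S i) := by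
  choose 𝒞 h1 h2 h3 using h
  refine ⟨⋃ i, ⋃ hi : i ∈ I, 𝒞 i hi, hI.biUnion h1, ?_, ?_⟩
  · intro D hD
    simp only [mem_iUnion] at hD
    obtain ⟨i, hi, hD⟩ := hD
    exact h2 i hi D hD
  · intro x hx
    simp only [mem_iUnion] at hx
    obtain ⟨i, hi, hx⟩ := hx
    obtain ⟨D, hD, hxD⟩ := h3 i hi hx
    exact ⟨D, mem_iUnion₂.2 ⟨i, hi, hD⟩, hxD⟩

theorem sep_iUnion {ι : Type} [Countable ι] {A B : Set M} {S : ι → Set M}
    (h : ∀ i, Sep A B (S i)) : Sep A B (⋃ i, S i) := by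
  have := sep_biUnion (A := A) (B := B) (countable_univ (α := ι)) (fun i _ => h i)
  simpa using this

theorem Sep.union {A B S S' : Set M} (h : Sep A B S) (h' : Sep A B S') : Sep A B (S ∪ S') := by
  rw [union_eq_iUnion]
  exact sep_iUnion fun b => by cases b <;> assumption

theorem Sep.gdelta {A B : Set M} (h : Sep A B Set.univ) :
    ∃ U V : Set M, IsGδ U ∧ IsGδ V ∧ A ⊆ U ∧ B ⊆ V ∧ Disjoint U V := by
  obtain ⟨𝒞, h1, h2, h3⟩ := h
  refine ⟨⋂ D ∈ {D ∈ 𝒞 | Disjoint D A}, Dᶜ, ⋂ D ∈ {D ∈ 𝒞 | Disjoint D B}, Dᶜ,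
    IsGδ.biInter_of_isOpen (h1.mono fun _ h => h.1) fun D hD => (h2 D hD.1).1.isOpen_compl,
    IsGδ.biInter_of_isOpen (h1.mono fun _ h => h.1) fun D hD => (h2 D hD.1).1.isOpen_compl,
    ?_, ?_, ?_⟩
  · exact subset_iInter₂ fun D hD => hD.2.subset_compl_left
  · exact subset_iInter₂ fun D hD => hD.2.subset_compl_left
  · rw [Set.disjoint_left]
    intro x hx hx'
    obtain ⟨D, hD, hxD⟩ := h3 (mem_univ x)
    rcases (h2 D hD).2 with h | h
    · exact mem_iInter₂.1 hx D ⟨hD, h⟩ hxD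
    · exact mem_iInter₂.1 hx' D ⟨hD, h⟩ hxD

variable {K : Type} [TopologicalSpace K]

/-- Graphs of continuous maps over a subnormal space. -/
theorem sep_graph [T2Space K]
    (hM : ∀ A B : Set M, IsClosed A → IsClosed B → Disjoint A B → Sep A B Set.univ)
    {f : M → K} (hf : Continuous f) {A B : Set (M × K)} (hA : IsClosed A) (hB : IsClosed B)
    (hAB : Disjoint A B) : Sep A B {p | p.2 = f p.1} := by
  have hc : Continuous fun x => (x, f x) := by fun_prop
  obtain ⟨𝒞, h1, h2, h3⟩ := hM _ _ (hA.preimage hc) (hB.preimage hc) (hAB.preimage _)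
  refine (sep_biUnion h1 (S := fun D => {p | p.1 ∈ D ∧ p.2 = f p.1}) fun D hD => ?_).mono ?_
  · refine sep_single (((h2 D hD).1.preimage continuous_fst).inter
      (isClosed_eq continuous_snd (hf.comp continuous_fst))) ?_
    refine (h2 D hD).2.imp (fun h => ?_) (fun h => ?_) <;>
    · rw [Set.disjoint_left] at h ⊢
      rintro ⟨x, y⟩ ⟨hx, rfl : y = f x⟩
      exact h hx
  · intro p hp
    obtain ⟨D, hD, hx⟩ := h3 (mem_univ p.1)
    exact mem_iUnion₂.2 ⟨D, hD, hx, hp⟩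

/-- Products of a closed discrete set with a normal space. -/
theorem sep_discrete [NormalSpace K] {S : Set M}
    (hS : ∀ x : M, ∃ W ∈ 𝓝 x, W ∩ S ⊆ {x}) {A B : Set (M × K)} (hA : IsClosed A)
    (hB : IsClosed B) (hAB : Disjoint A B) : Sep A B (S ×ˢ Set.univ) := by
  have hsec : ∀ x : M, ∃ U V : Set K, IsOpen U ∧ IsOpen V ∧ Prod.mk x ⁻¹' A ⊆ U ∧
      Prod.mk x ⁻¹' B ⊆ V ∧ Disjoint U V := fun x =>
    normal_separation (hA.preimage (by fun_prop)) (hB.preimage (by fun_prop)) (hAB.preimage _)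
  choose U V hU hV hAU hBV hUV using hsec
  have hcl : ∀ O : M → Set K, (∀ x, IsOpen (O x)) → IsClosed {p : M × K | p.1 ∈ S ∧ p.2 ∉ O p.1} := by
    intro O hO
    rw [← isOpen_compl_iff, isOpen_iff_mem_nhds]
    rintro ⟨x, y⟩ hp
    obtain ⟨W, hW, hWS⟩ := hS x
    by_cases hy : y ∈ O x
    · filter_upwards [prod_mem_nhds hW ((hO x).mem_nhds hy)] with p hp' hp''
      have : p.1 = x := hWS ⟨hp'.1, hp''.1⟩
      exact hp''.2 (this ▸ hp'.2)
    · filter_upwards [prod_mem_nhds hW univ_mem] with p hp' hp''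
      have : p.1 = x := hWS ⟨hp'.1, hp''.1⟩
      exact hp ⟨this ▸ hp''.1, hy⟩
  refine ((sep_single (hcl U hU) (Or.inl ?_)).union (sep_single (hcl V hV) (Or.inr ?_))).mono ?_
  · rw [Set.disjoint_left]
    exact fun p hp hpA => hp.2 (hAU p.1 hpA)
  · rw [Set.disjoint_left]
    exact fun p hp hpB => hp.2 (hBV p.1 hpB)
  · rintro p ⟨hp, -⟩
    by_cases h : p.2 ∈ U p.1
    · exact Or.inr ⟨hp, fun h' => Set.disjoint_left.1 (hUV p.1) h h'⟩
    · exact Or.inl ⟨hp, h⟩

end Sep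

/-- The topology generated by a system of decreasing neighbourhoods. -/
@[reducible] def topOfN {X : Type} (N : X → ℕ → Set X) (hanti : ∀ x, Antitone (N x)) :
    TopologicalSpace X where
  IsOpen V := ∀ y ∈ V, ∃ k, N y k ⊆ V
  isOpen_univ := fun _ _ => ⟨0, subset_univ _⟩
  isOpen_inter := by
    intro s t hs ht y hy
    obtain ⟨k, hk⟩ := hs y hy.1
    obtain ⟨l, hl⟩ := ht y hy.2
    exact ⟨max k l, subset_inter ((hanti y (le_max_left _ _)).trans hk)
      ((hanti y (le_max_right _ _)).trans hl)⟩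
  isOpen_sUnion := by
    rintro S hS y ⟨t, ht, hy⟩
    obtain ⟨k, hk⟩ := hS t ht y hy
    exact ⟨k, hk.trans (subset_sUnion_of_mem ht)⟩

end Pool.Agent.P.MP_5aa89f_gt
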