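import Pool.Agent.P.MP_5aa89f_gt.Main

/-! The space `X` is not submetalindeloef. -/

set_option autoImplicit false

namespace Pool.Agent.P.MP_5aa89f_gt

open Set Topology Filter

theorem exists_sep {α β : Type} {F : Set α} (hF : ¬ F.Countable) (j : α → β)
    (hj : Function.Injective j) (𝒢 : Set (Set β)) (h1 : ∀ G ∈ 𝒢, G.Countable)
    (h2 : ∀ a ∈ F, {G ∈ 𝒢 | j a ∈ G}.Countable) :
    ∃ S ⊆ F, ¬ S.Countable ∧ ∀ G ∈ 𝒢, ∀ a ∈ S, ∀ b ∈ S, j a ∈ G → j b ∈ G → a = b := by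
  obtain ⟨S, hS⟩ := zorn_subset
    {S | S ⊆ F ∧ ∀ G ∈ 𝒢, ∀ a ∈ S, ∀ b ∈ S, j a ∈ G → j b ∈ G → a = b} fun c hc hch => by
      refine ⟨⋃₀ c, ⟨sUnion_subset fun t ht => (hc ht).1, ?_⟩, fun s hs => subset_sUnion_of_mem hs⟩
      rintro G hG a ⟨s, hs, ha⟩ b ⟨t, ht, hb⟩ haG hbG
      rcases hch.total hs ht with h | h
      · exact (hc ht).2 G hG a (h ha) b hb haG hbG
      · exact (hc hs).2 G hG a ha b (h hb) haG hbG
  refine ⟨S, hS.prop.1, fun hc => hF ?_, hS.prop.2⟩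
  have hc' : (⋃ s ∈ S, ⋃ G ∈ {G ∈ 𝒢 | j s ∈ G}, j ⁻¹' G).Countable :=
    hc.biUnion fun s hs => (h2 s (hS.prop.1 hs)).biUnion fun G hG => (h1 G hG.1).preimage hj
  refine (hc.union hc').mono fun a ha => ?_
  by_contra hn
  simp only [mem_union, mem_iUnion, not_or, not_exists, mem_preimage] at hn
  have : insert a S ⊆ S := hS.le_of_ge ⟨insert_subset ha hS.prop.1, by
    rintro G hG x (rfl | hx) y (rfl | hy) hxG hyG
    · rfl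
    · exact absurd hxG (hn.2 y hy G ⟨hG, hyG⟩)
    · exact absurd hyG (hn.2 x hx G ⟨hG, hxG⟩)
    · exact hS.prop.2 G hG x hx y hy hxG hyG⟩ (subset_insert _ _)
  exact hn.1 (this (mem_insert _ _))

theorem not_theta (𝒢 : ℕ → Set (Set X))
    (h1 : ∀ n, (∀ G ∈ 𝒢 n, IsOpen G ∧ G.Countable) ∧ ⋃₀ 𝒢 n = univ) :
    ¬ ∀ x, ∃ n, {G ∈ 𝒢 n | x ∈ G}.Countable := by
  intro h2
  choose n hn using h2
  obtain ⟨m, hm⟩ : ∃ m, ¬ {z : Z | n (X.pt z) = m}.Countable := by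
    by_contra h
    push Not at h
    exact not_countable_Z ((countable_iUnion h).mono fun z _ => mem_iUnion.2 ⟨n (X.pt z), rfl⟩)
  obtain ⟨S, -, hS2, hS3⟩ := exists_sep hm X.pt pt_inj (𝒢 m) (fun G hG => ((h1 m).1 G hG).2)
    fun a ha => (ha : n (X.pt a) = m) ▸ hn (X.pt a)
  obtain ⟨y, hy⟩ := exists_acc hS2
  obtain ⟨G, hG, hyG⟩ : X.pt y ∈ ⋃₀ 𝒢 m := (h1 m).2 ▸ mem_univ _
  obtain ⟨j, -, hj⟩ := (hasBasis_N _).mem_iff.1 (((h1 m).1 G hG).1.mem_nhds hyG)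
  obtain ⟨a, ha, b, hb, hab⟩ := (hy j).nontrivial
  exact hab (hS3 G hG a ha.2 b hb.2 (hj ⟨a, ha.1, rfl⟩) (hj ⟨b, hb.1, rfl⟩))

theorem not_sigma (ℱ : ℕ → Set (Set X))
    (h1 : ∀ n, (∀ F ∈ ℱ n, F.Countable) ∧
      ∀ x : X, ∃ W ∈ 𝓝 x, {F ∈ ℱ n | (W ∩ F).Nonempty}.Finite) :
    (⋃ n, ⋃₀ ℱ n) ≠ univ := by
  intro h2
  have : ∀ z : Z, ∃ n, ∃ F ∈ ℱ n, X.pt z ∈ F := fun z => by
    have : X.pt z ∈ ⋃ n, ⋃₀ ℱ n := h2 ▸ mem_univ _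
    simpa using this
  choose n k hk hnk using this
  obtain ⟨m, hm⟩ : ∃ m, ¬ {z | n z = m}.Countable := by
    by_contra h
    push Not at h
    exact not_countable_Z ((countable_iUnion h).mono fun z _ => mem_iUnion.2 ⟨n z, rfl⟩)
  obtain ⟨S, hS1, hS2, hS3⟩ := exists_sep hm X.pt pt_inj (ℱ m) (h1 m).1 fun a _ => by
    obtain ⟨W, hW, hW'⟩ := (h1 m).2 (X.pt a)
    exact hW'.countable.mono fun G hG =>
      mem_sep_iff.2 ⟨hG.1, ⟨X.pt a, mem_of_mem_nhds hW, hG.2⟩⟩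
  obtain ⟨y, hy⟩ := exists_acc hS2
  obtain ⟨W, hW, hW'⟩ := (h1 m).2 (X.pt y)
  obtain ⟨j, -, hj⟩ := (hasBasis_N _).mem_iff.1 hW
  have hk' : ∀ a ∈ S, k a ∈ ℱ m := fun a ha => (hS1 ha : n a = m) ▸ hk a
  refine hy j (Set.Finite.of_injOn (f := k) (fun a ha => ?_) (fun a ha b hb hab => ?_) hW')
  · exact ⟨hk' a ha.2, X.pt a, hj ⟨a, ha.1, rfl⟩, hnk a⟩
  · exact hS3 _ (hk' a ha.2) a ha.2 b hb.2 (hnk a) (hab ▸ hnk b)

theorem firstCountable : FirstCountableTopology X :=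
  ⟨fun x => (hasBasis_N x).isCountablyGenerated⟩

theorem separable : TopologicalSpace.SeparableSpace X :=
  ⟨range lf, countable_range _, fun x => mem_closure_iff_nhds.2 fun t ht => by
    obtain ⟨k, -, hk⟩ := (hasBasis_N x).mem_iff.1 ht
    obtain ⟨l, hl⟩ := exists_lf_mem x k
    exact ⟨lf l, hk hl, l, rfl⟩⟩

end Pool.Agent.P.MP_5aa89f_gt
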