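import Pool.Agent.P.MP_5aa89f_gt.Mad

/-!
The space `X`: add to `Z` a limit point for each member of the glued family.  Its Stone-Cech
compactification is the one-point compactification.
-/

set_option autoImplicit false

namespace Pool.Agent.P.MP_5aa89f_gt

open Set Topology Filter

/-- The index set of the family. -/
def W : Set C := exists_family.choose

/-- The family. -/
def A : C → Set L := exists_family.choose_spec.choose

theorem A_spec : (∀ w ∈ W, (A w).Infinite ∧ LF (A w)) ∧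
    (∀ w w', w ≠ w' → (A w ∩ A w').Finite) ∧
    (∀ a : Set L, a.Infinite → LF a → ∃ w ∈ W, (a ∩ A w).Infinite) ∧
    ∀ B₀ B₁ : Set L, ¬ {w ∈ W | (A w \ B₀).Finite}.Countable →
      ¬ {w ∈ W | (A w \ B₁).Finite}.Countable →
      ∃ w ∈ W, (A w ∩ B₀).Infinite ∧ (A w ∩ B₁).Infinite :=
  exists_family.choose_spec.choose_spec

/-- The space. -/
inductive X : Type
  | pt : Z → X
  | cap : W → X

/-- Isolated points. -/
def lf (l : L) : X := X.pt (Z.leaf l)

theorem pt_inj : Function.Injective X.pt := fun _ _ h => X.pt.inj h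

theorem lf_inj : Function.Injective lf := fun _ _ h => Z.leaf.inj (X.pt.inj h)

/-- Basic neighbourhoods. -/
def N : X → ℕ → Set X
  | X.pt z, k => X.pt '' U z k
  | X.cap w, k => insert (X.cap w) (lf '' {l ∈ A w | k ≤ Encodable.encode l})

theorem N_anti (x : X) : Antitone (N x) := by
  intro k k' hk
  cases x with
  | pt z => exact image_mono (U_anti z hk)
  | cap w => exact insert_subset_insert (image_mono fun l hl => ⟨hl.1, hk.trans hl.2⟩)

theorem mem_N (x : X) (k : ℕ) : x ∈ N x k := by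
  cases x with
  | pt z => exact ⟨z, mem_U z k, rfl⟩
  | cap w => exact mem_insert _ _

instance topX : TopologicalSpace X := topOfN N N_anti

theorem isOpen_X {V : Set X} : IsOpen V ↔ ∀ y ∈ V, ∃ k, N y k ⊆ V := Iff.rfl

theorem N_lf (l : L) (k : ℕ) : N (lf l) k = {lf l} := by
  simp [lf, N, U_leaf]

theorem isOpen_N (x : X) (k : ℕ) : IsOpen (N x k) := by
  refine isOpen_X.2 ?_
  cases x with
  | pt z =>
    rintro _ ⟨y, hy, rfl⟩
    obtain ⟨m, hm⟩ := Mem.nbhd hy
    exact ⟨m, image_mono hm⟩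
  | cap w =>
    rintro y (rfl | ⟨l, hl, rfl⟩)
    · exact ⟨k, subset_rfl⟩
    · exact ⟨0, by rw [N_lf]; exact singleton_subset_iff.2 (Or.inr ⟨l, hl, rfl⟩)⟩

theorem hasBasis_N (y : X) : (𝓝 y).HasBasis (fun _ : ℕ => True) (N y) := by
  refine ⟨fun s => ⟨fun hs => ?_, fun ⟨k, _, hk⟩ =>
    mem_of_superset ((isOpen_N y k).mem_nhds (mem_N y k)) hk⟩⟩
  obtain ⟨t, hts, ht, hy⟩ := mem_nhds_iff.1 hs
  obtain ⟨k, hk⟩ := isOpen_X.1 ht y hy
  exact ⟨k, trivial, hk.trans hts⟩

theorem N_mem_nhds (y : X) (k : ℕ) : N y k ∈ 𝓝 y := (hasBasis_N y).mem_of_mem trivial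

theorem continuous_pt : Continuous X.pt := by
  refine continuous_iff_continuousAt.2 fun y => ?_
  exact ((hasBasis_U y).tendsto_iff (hasBasis_N _)).2 fun j _ =>
    ⟨j, trivial, fun z hz => ⟨z, hz, rfl⟩⟩

theorem isOpen_pt_image {V : Set Z} (hV : IsOpen V) : IsOpen (X.pt '' V) := by
  refine isOpen_X.2 ?_
  rintro _ ⟨y, hy, rfl⟩
  obtain ⟨k, hk⟩ := isOpen_Z.1 hV y hy
  exact ⟨k, image_mono hk⟩

theorem finite_encode_lt (k : ℕ) : {l : L | Encodable.encode l < k}.Finite :=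
  (Set.finite_lt_nat k).preimage Encodable.encode_injective.injOn

theorem exists_encode_bound {s : Set L} (hs : s.Finite) : ∃ k, ∀ l ∈ s, Encodable.encode l < k := by
  obtain ⟨m, hm⟩ := (hs.image Encodable.encode).bddAbove
  exact ⟨m + 1, fun l hl => Nat.lt_succ_of_le (hm ⟨l, hl, rfl⟩)⟩

theorem countable_N (x : X) (k : ℕ) : (N x k).Countable := by
  cases x with
  | pt z => exact (countable_U z k).image _
  | cap w => exact ((Set.to_countable _).image _).insert _

theorem isCompact_N (x : X) (k : ℕ) : IsCompact (N x k) := by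
  cases x with
  | pt z => exact (isCompact_U z k).image continuous_pt
  | cap w =>
    refine isCompact_iff_ultrafilter_le_nhds'.2 fun F hF => ?_
    by_cases h : ∀ m, N (X.cap w) m ∈ F
    · exact ⟨_, mem_N _ _, (hasBasis_N _).ge_iff.2 fun m _ => h m⟩
    · push Not at h
      obtain ⟨m, hm⟩ := h
      have hfin : (N (X.cap w) k \ N (X.cap w) m).Finite := by
        refine ((finite_encode_lt m).image lf).subset ?_
        rintro y ⟨rfl | ⟨l, hl, rfl⟩, hy⟩
        · exact absurd (mem_N _ _) hy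
        · refine ⟨l, ?_, rfl⟩
          by_contra hl'
          exact hy (Or.inr ⟨l, ⟨hl.1, not_lt.1 hl'⟩, rfl⟩)
      have hmem : N (X.cap w) k \ N (X.cap w) m ∈ F :=
        inter_mem hF (Ultrafilter.compl_mem_iff_notMem.2 hm)
      obtain ⟨x, hx, hx'⟩ := isCompact_iff_ultrafilter_le_nhds'.1 hfin.isCompact F hmem
      exact ⟨x, hx.1, hx'⟩

instance : T2Space X := by
  have key : ∀ (z : Z) (w : W), ∃ k, Disjoint (N (X.pt z) k) (N (X.cap w) k) := by
    intro z w
    obtain ⟨k, hk⟩ := (A_spec.1 w w.2).2 z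
    obtain ⟨m, hm⟩ := exists_encode_bound hk
    refine ⟨max k m, Set.disjoint_left.2 ?_⟩
    rintro _ ⟨y, hy, rfl⟩ (h | ⟨l, hl, h⟩)
    · cases h
    · have : Z.leaf l = y := X.pt.inj h
      subst this
      have := hm l ⟨hl.1, U_anti z (le_max_left _ _) hy⟩
      have := (le_max_right k m).trans hl.2
      omega
  have key2 : ∀ x y : X, x ≠ y → ∃ k, Disjoint (N x k) (N y k) := by
    rintro (z | w) (z' | w') h
    · obtain ⟨j, hj⟩ := exists_not_agree (fun h' => h (congrArg X.pt (pos_inj h')))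
      refine ⟨j, Set.disjoint_left.2 ?_⟩
      rintro _ ⟨y, hy, rfl⟩ ⟨y', hy', h'⟩
      rw [X.pt.inj h'] at hy'
      exact hj ((Mem.agree hy).symm.trans (Mem.agree hy'))
    · exact key z w'
    · obtain ⟨k, hk⟩ := key z' w
      exact ⟨k, hk.symm⟩
    · obtain ⟨m, hm⟩ := exists_encode_bound
        (A_spec.2.1 w w' fun h' => h (congrArg X.cap (Subtype.ext h')))
      refine ⟨m, Set.disjoint_left.2 ?_⟩
      rintro y (rfl | ⟨l, hl, rfl⟩) (h' | ⟨l', hl', h'⟩)
      · exact h h'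
      · cases h'
      · cases h'
      · rw [lf_inj h'] at hl'
        have := hm l ⟨hl.1, hl'.1⟩
        have := hl.2
        omega
  refine ⟨fun x y h => ?_⟩
  obtain ⟨k, hk⟩ := key2 x y h
  exact ⟨N x k, N y k, isOpen_N _ _, isOpen_N _ _, mem_N _ _, mem_N _ _, hk⟩

instance : WeaklyLocallyCompactSpace X :=
  ⟨fun x => ⟨N x 0, isCompact_N x 0, N_mem_nhds x 0⟩⟩

instance : T35Space X :=
  haveI := (OnePoint.isOpenEmbedding_coe (X := X)).isInducing.completelyRegularSpace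
  ⟨⟩

theorem exists_lf_mem (x : X) (k : ℕ) : ∃ l, lf l ∈ N x k := by
  cases x with
  | pt z =>
    obtain ⟨l, hl⟩ := exists_leaf_mem z k
    exact ⟨l, _, hl, rfl⟩
  | cap w =>
    obtain ⟨l, hl, hl'⟩ := ((A_spec.1 w w.2).1.sdiff (finite_encode_lt k)).nonempty
    exact ⟨l, Or.inr ⟨l, ⟨hl, not_lt.1 hl'⟩, rfl⟩⟩

theorem countable_of_isCompact {H : Set X} (hH : IsCompact H) : H.Countable := by
  obtain ⟨t, -, ht⟩ := hH.elim_nhds_subcover (fun x => N x 0) fun x _ => N_mem_nhds x 0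
  exact (t.countable_toSet.biUnion fun x _ => countable_N x 0).mono ht

theorem cap_discrete (x : X) : ∃ V ∈ 𝓝 x, V ∩ range X.cap ⊆ {x} := by
  refine ⟨N x 0, N_mem_nhds x 0, ?_⟩
  rintro _ ⟨hw, w, rfl⟩
  cases x with
  | pt z => obtain ⟨_, _, h⟩ := hw; cases h
  | cap w' =>
    rcases hw with h | ⟨_, _, h⟩
    · exact h
    · cases h

theorem finite_cap_of_isCompact {H : Set X} (hH : IsCompact H) : (H ∩ range X.cap).Finite := by
  choose V hV hV' using cap_discrete
  obtain ⟨t, -, ht⟩ := hH.elim_nhds_subcover V fun x _ => hV x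
  refine t.finite_toSet.subset fun y hy => ?_
  obtain ⟨x, hx, hyx⟩ := mem_iUnion₂.1 (ht hy.1)
  have : y = x := hV' x ⟨hyx, hy.2⟩
  exact this ▸ hx

/-- The non-isolated points of `Z`. -/
def nodes : Set Z := {z | ∀ l, z ≠ Z.leaf l}

theorem isClosed_pt_image {S : Set Z} (hS : IsClosed S) : IsClosed (X.pt '' (S ∩ nodes)) := by
  rw [← isOpen_compl_iff]
  refine isOpen_X.2 ?_
  rintro (z | w) hz
  · by_cases hz' : z ∈ S
    · have : ¬ z ∈ nodes := fun h => hz ⟨z, ⟨hz', h⟩, rfl⟩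
      simp only [nodes, mem_ofPred_eq, not_forall, not_not] at this
      obtain ⟨l, rfl⟩ := this
      exact ⟨0, by rw [show X.pt (Z.leaf l) = lf l from rfl, N_lf]; exact singleton_subset_iff.2 hz⟩
    · obtain ⟨k, hk⟩ := isOpen_Z.1 hS.isOpen_compl z hz'
      refine ⟨k, ?_⟩
      rintro _ ⟨y, hy, rfl⟩ ⟨y', hy', h⟩
      exact hk hy (X.pt.inj h ▸ hy'.1)
  · refine ⟨0, ?_⟩
    rintro _ (rfl | ⟨l, -, rfl⟩) ⟨y', hy', h⟩
    · cases h
    · exact hy'.2 l (X.pt.inj h)

/-- A set of leaves meeting only countably many members of the family in an infinite set is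
relatively compact. -/
theorem compact_of_countable {B : Set L} (hB : {w ∈ W | (A w ∩ B).Infinite}.Countable) :
    ∃ H : Set X, IsCompact H ∧ ∀ l ∈ B, lf l ∈ H := by
  by_contra hcon
  push Not at hcon
  -- a point of the Cantor set near which `B` is not relatively compact
  obtain ⟨c, hc⟩ : ∃ c : C, ∀ j, ∀ H : Set X, IsCompact H →
      ∃ l ∈ B, agree j (q l) c ∧ lf l ∉ H := by
    by_contra h
    push Not at h
    choose j H hH hH' using h
    obtain ⟨t, -, ht⟩ := isCompact_univ.elim_nhds_subcover (fun c => {a | agree (j c) a c})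
      fun c _ => (hasBasis_agree c).mem_of_mem trivial
    obtain ⟨l, hl, hl'⟩ := hcon (⋃ c ∈ t, H c) (t.isCompact_biUnion fun c _ => hH c)
    obtain ⟨c, hc, hlc⟩ := mem_iUnion₂.1 (ht (mem_univ (q l)))
    exact hl' (mem_iUnion₂.2 ⟨c, hc, hH' c l hl hlc⟩)
  have hc1 : (insert ∅ ((fun w : W => N (X.cap w) 0) '' {w | (A w ∩ B).Infinite})).Countable := by
    refine Set.Countable.insert _ (Set.Countable.image ?_ _)
    refine (hB.preimage_of_injOn (f := (Subtype.val : W → C)) Subtype.val_injective.injOn).mono ?_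
    intro w hw
    exact And.intro w.2 hw
  obtain ⟨H, hH⟩ := hc1.exists_eq_range (insert_nonempty _ _)
  have hHc : ∀ i, IsCompact (H i) := by
    intro i
    have : H i ∈ range H := mem_range_self i
    rw [← hH] at this
    rcases this with h | ⟨w, -, h⟩
    · rw [h]; exact isCompact_empty
    · rw [← h]; exact isCompact_N _ _
  obtain ⟨K₀, hK₀, hK₀'⟩ : ∃ K₀ : Set X, IsCompact K₀ ∧ ∀ z, pos z = c → N (X.pt z) 0 ⊆ K₀ := by
    by_cases h : ∃ z, pos z = c
    · obtain ⟨z, hz⟩ := h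
      exact ⟨N (X.pt z) 0, isCompact_N _ _, fun z' hz' => by rw [pos_inj (hz'.trans hz.symm)]⟩
    · exact ⟨∅, isCompact_empty, fun z hz => absurd ⟨z, hz⟩ h⟩
  choose l hlB hl1 hl2 using fun j => hc j
    ((⋃ i ∈ {i | i ≤ j}, H i) ∪ K₀ ∪ lf '' {l | Encodable.encode l < j})
    ((((Set.finite_le_nat j).isCompact_biUnion fun i _ => hHc i).union hK₀).union
      ((finite_encode_lt j).image lf).isCompact)
  have hinf : (range l).Infinite := by
    intro h
    obtain ⟨k, hk⟩ := exists_encode_bound h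
    exact hl2 k (Or.inr ⟨l k, hk _ (mem_range_self k), rfl⟩)
  have hLF : LF (range l) := by
    refine LF_of_conv (c := c) (fun j => ((Set.finite_lt_nat j).image l).subset ?_)
      (fun z hz => ?_)
    · rintro _ ⟨⟨i, rfl⟩, h⟩
      refine ⟨i, ?_, rfl⟩
      by_contra hi
      exact h ((hl1 i).mono (not_lt.1 hi))
    · refine finite_empty.subset ?_
      rintro _ ⟨⟨i, rfl⟩, h⟩
      exact hl2 i (Or.inl (Or.inr (hK₀' z hz ⟨_, h, rfl⟩)))
  obtain ⟨w, hw, hw'⟩ := A_spec.2.2.1 _ hinf hLF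
  have : N (X.cap ⟨w, hw⟩) 0 ∈ range H := by
    rw [← hH]
    refine Or.inr ⟨⟨w, hw⟩, hw'.mono ?_, rfl⟩
    rintro _ ⟨⟨i, rfl⟩, h⟩
    exact ⟨h, hlB i⟩
  obtain ⟨i, hi⟩ := this
  refine hw' (((Set.finite_lt_nat i).image l).subset ?_)
  rintro _ ⟨⟨j, rfl⟩, h⟩
  refine ⟨j, ?_, rfl⟩
  by_contra hj
  refine hl2 j (Or.inl (Or.inl (mem_iUnion₂.2 ⟨i, show i ≤ j from not_lt.1 hj, ?_⟩)))
  rw [hi]
  exact Or.inr ⟨l j, ⟨h, Nat.zero_le _⟩, rfl⟩

theorem finite_of_open {w : W} {V : Set X} (hV : IsOpen V) (hw : X.cap w ∈ V) :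
    (A w \ lf ⁻¹' V).Finite := by
  obtain ⟨k, hk⟩ := isOpen_X.1 hV _ hw
  refine (finite_encode_lt k).subset ?_
  rintro l ⟨hl, hl'⟩
  by_contra h
  exact hl' (hk (Or.inr ⟨l, ⟨hl, not_lt.1 h⟩, rfl⟩))

theorem mem_of_infinite {w : W} {V : Set X} (hV : IsClosed V) (hw : (A w ∩ lf ⁻¹' V).Infinite) :
    X.cap w ∈ V := by
  by_contra h
  exact hw (by simpa [sdiff_eq] using finite_of_open hV.isOpen_compl h)

theorem compact_or_compact {g : X → ℝ} (hg : Continuous g) {a b : ℝ} (hab : a < b) :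
    (∃ H, IsCompact H ∧ {x | g x ≤ a} ⊆ H) ∨ ∃ H, IsCompact H ∧ {x | b ≤ g x} ⊆ H := by
  have key : ∀ (g : X → ℝ), Continuous g → ∀ a ε : ℝ, 0 < ε →
      (¬ ∃ H, IsCompact H ∧ {x | g x ≤ a} ⊆ H) →
      ¬ {w ∈ W | (A w \ lf ⁻¹' {x | g x ≤ a + 2 * ε}).Finite}.Countable := by
    intro g hg a ε hε h1 h2
    have hsub : {w ∈ W | (A w ∩ lf ⁻¹' {x | g x ≤ a + ε}).Infinite} ⊆
        {w ∈ W | (A w \ lf ⁻¹' {x | g x ≤ a + 2 * ε}).Finite} := by
      rintro w ⟨hw, hw'⟩
      have h3 : g (X.cap ⟨w, hw⟩) ≤ a + ε :=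
        mem_of_infinite (w := ⟨w, hw⟩) (isClosed_le hg continuous_const) hw'
      refine ⟨hw, (finite_of_open (w := ⟨w, hw⟩) (V := {x | g x < a + 2 * ε})
        (isOpen_lt hg continuous_const) (show g _ < _ by linarith)).subset ?_⟩
      refine sdiff_subset_sdiff_right fun l hl => ?_
      exact show g (lf l) ≤ a + 2 * ε from le_of_lt hl
    obtain ⟨H, hH, hH'⟩ := compact_of_countable (B := lf ⁻¹' {x | g x ≤ a + ε}) (h2.mono hsub)
    refine h1 ⟨H, hH, fun x hx => ?_⟩
    rw [← hH.isClosed.closure_eq, mem_closure_iff_nhds_basis (hasBasis_N x)]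
    intro k _
    obtain ⟨m, hm⟩ := isOpen_X.1 (isOpen_lt hg continuous_const) x
      (show g x < a + ε from lt_of_le_of_lt hx (by linarith))
    obtain ⟨l, hl⟩ := exists_lf_mem x (max k m)
    have h4 : g (lf l) < a + ε := hm (N_anti x (le_max_right _ _) hl)
    exact ⟨lf l, hH' l (show g (lf l) ≤ a + ε from h4.le), N_anti x (le_max_left _ _) hl⟩
  by_contra hcon
  rw [not_or] at hcon
  have h1 := key g hg a ((b - a) / 5) (by linarith) hcon.1
  have h2 := key (fun x => - g x) hg.neg (-b) ((b - a) / 5) (by linarith)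
    (by simpa using hcon.2)
  obtain ⟨w, hw, h3, h4⟩ := A_spec.2.2.2 _ _ h1 h2
  have h5 : g (X.cap ⟨w, hw⟩) ≤ a + 2 * ((b - a) / 5) :=
    mem_of_infinite (w := ⟨w, hw⟩) (isClosed_le hg continuous_const) h3
  have h6 : - g (X.cap ⟨w, hw⟩) ≤ -b + 2 * ((b - a) / 5) :=
    mem_of_infinite (w := ⟨w, hw⟩) (isClosed_le hg.neg continuous_const) h4
  linarith

theorem exists_limit {g : X → ℝ} (hg : Continuous g) (h01 : ∀ x, g x ∈ Icc (0 : ℝ) 1) :
    ∃ r, Tendsto g (coclosedCompact X) (𝓝 r) := by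
  let S : Set ℝ := {a | ∃ H, IsCompact H ∧ {x | g x ≤ a} ⊆ H}
  have hne : S.Nonempty := ⟨-1, ∅, isCompact_empty, fun x hx => by
    have := (h01 x).1
    have : g x ≤ -1 := hx
    linarith⟩
  have hbd : ∀ a ∈ S, a ≤ 1 := by
    rintro a ⟨H, hH, hH'⟩
    by_contra h
    refine not_countable_Z (countable_of_injective_of_countable_image pt_inj.injOn
      ((countable_of_isCompact hH).mono fun x _ => hH' ?_))
    exact (h01 x).2.trans (not_le.1 h).le
  refine ⟨sSup S, ?_⟩
  rw [coclosedCompact_eq_cocompact, Metric.tendsto_nhds]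
  intro ε hε
  obtain ⟨a, ⟨H₁, hH₁, hH₁'⟩, ha⟩ := exists_lt_of_lt_csSup hne (show sSup S - ε < sSup S by linarith)
  have h2 : sSup S + ε / 2 ∉ S := fun h => by
    have := le_csSup ⟨1, hbd⟩ h
    linarith
  obtain ⟨H₂, hH₂, hH₂'⟩ := (compact_or_compact hg
    (show sSup S + ε / 2 < sSup S + ε by linarith)).resolve_left h2
  refine mem_cocompact.2 ⟨H₁ ∪ H₂, hH₁.union hH₂, fun x hx => ?_⟩
  have h3 : ¬ g x ≤ a := fun h => hx (Or.inl (hH₁' h))
  have h4 : ¬ sSup S + ε ≤ g x := fun h => hx (Or.inr (hH₂' h))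
  rw [mem_ofPred_eq, Real.dist_eq, abs_lt]
  constructor <;> linarith

theorem exists_inj_stoneCech :
    ∃ π : StoneCech X → OnePoint X, Continuous π ∧ Function.Injective π := by
  refine ⟨stoneCechExtend OnePoint.continuous_coe, continuous_stoneCechExtend _,
    fun p p' h => ?_⟩
  by_contra hne
  obtain ⟨f, hf0, hf1, hf⟩ := exists_continuous_zero_one_of_isClosed
    (isClosed_singleton (x := p)) (isClosed_singleton (x := p')) (disjoint_singleton.2 hne)
  have hg : Continuous (f ∘ stoneCechUnit) := f.continuous.comp continuous_stoneCechUnit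
  obtain ⟨r, hr⟩ := exists_limit hg fun x => hf _
  let g' := OnePoint.continuousMapMk ⟨_, hg⟩ r hr
  have heq : g' ∘ stoneCechExtend OnePoint.continuous_coe = f :=
    denseRange_stoneCechUnit.equalizer (g'.continuous.comp (continuous_stoneCechExtend _))
      f.continuous (by
        funext x
        simp only [Function.comp, stoneCechExtend_stoneCechUnit]
        rfl)
  have h0 := congrFun heq p
  have h1 := congrFun heq p'
  rw [Function.comp, h] at h0
  rw [hf0 rfl] at h0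
  rw [hf1 rfl] at h1
  have := h0.symm.trans h1
  simp at this

end Pool.Agent.P.MP_5aa89f_gt
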