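import Pool.Agent.P.MP_5aa89f_gt.Prelim

/-!
A van Douwen type space `Z`: a locally compact, locally countable refinement of a subspace of the
Cantor set with a countable dense set of isolated points (the leaves).
-/

set_option autoImplicit false

namespace Pool.Agent.P.MP_5aa89f_gt

open Set Topology Filter Cardinal

/-- Names of the isolated points. -/
abbrev L : Type := Finset ℕ

/-- Positions of the isolated points. -/
def q (l : L) : C := fun i => decide (i ∈ l)

theorem q_inj : Function.Injective q := by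
  intro a b h
  ext i
  simpa [q] using congrFun h i

/-- An isolated point close to `x`. -/
def near (x : C) (j : ℕ) : L := (Finset.range j).filter (fun i => x i = true)

theorem agree_near (x : C) (j : ℕ) : agree j (q (near x j)) x := by
  intro i hi
  simp [q, near, hi]

/-- A position that is never used. -/
def c0 : C := fun _ => true

/-- Index set of a task. -/
abbrev Ix : Type := Bool × ℕ

/-- The closed set attached to a task. -/
def taskSet (τ : Ix → C × C) : Set (C × C) :=
  closure (range fun n => τ (true, n)) ∩ closure (range fun n => τ (false, n))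

theorem exists_sel : ∃ f : (Ix → C × C) → C × C, (∀ i, Large (taskSet i) → f i ∈ taskSet i) ∧
    (∀ i, (f i).1 ∉ range q ∪ {c0} ∧ (f i).2 ∉ range q ∪ {c0}) ∧
    (∀ i j, (f i).1 ≠ (f j).2) ∧ Function.Injective (fun i => (f i).1) ∧
    Function.Injective (fun i => (f i).2) := by
  refine selection ?_ _ ((countable_range q).union (countable_singleton _)) taskSet
  rw [← Cardinal.power_def, Cardinal.mk_prod, mk_C, Cardinal.mk_eq_aleph0 Ix]
  simp

/-- The selected pair of a task. -/
noncomputable def sel : (Ix → C × C) → C × C := exists_sel.choose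

/-- The points of the space. -/
inductive Z : Type
  | leaf : L → Z
  | node : (Ix → Z) → (Ix → Z) → Z

/-- The position of a point. -/
noncomputable def pos : Z → C
  | Z.leaf l => q l
  | Z.node a b => (sel (fun i => (pos (a i), pos (b i)))).1

/-- The forbidden position attached to a node. -/
noncomputable def forb (a b : Ix → Z) : C := (sel (fun i => (pos (a i), pos (b i)))).2

theorem pos_inj : Function.Injective pos := by
  intro y
  induction y with
  | leaf l =>
    intro z h
    cases z with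
    | leaf l' => rw [q_inj h]
    | node a b => exact absurd (Or.inl ⟨l, h⟩) (exists_sel.choose_spec.2.1 _).1
  | node a b iha ihb =>
    intro z h
    cases z with
    | leaf l' => exact absurd (Or.inl ⟨l', h.symm⟩) (exists_sel.choose_spec.2.1 _).1
    | node a' b' =>
      have h1 := exists_sel.choose_spec.2.2.2.1 h
      congr 1
      · funext i
        exact iha i (congrArg Prod.fst (congrFun h1 i))
      · funext i
        exact ihb i (congrArg Prod.snd (congrFun h1 i))

theorem pos_ne_forb (z : Z) (a b : Ix → Z) : pos z ≠ forb a b := by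
  cases z with
  | leaf l => exact fun h => (exists_sel.choose_spec.2.1 _).2 (Or.inl ⟨l, h⟩)
  | node a' b' => exact exists_sel.choose_spec.2.2.1 _ _

theorem pos_ne_c0 (z : Z) : pos z ≠ c0 := by
  cases z with
  | leaf l =>
    intro h
    obtain ⟨i, hi⟩ := Infinite.exists_notMem_finset l
    have := congrFun h i
    simp [pos, q, c0, hi] at this
  | node a b => exact fun h => (exists_sel.choose_spec.2.1 _).1 (Or.inr h)

theorem node_ne (z : Z) : ∀ (a b : Ix → Z) (i : Ix), a i = z → z ≠ Z.node a b := by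
  induction z with
  | leaf l => intro a b i _ h; cases h
  | node a' b' iha _ =>
    intro a b i h1 h2
    injection h2 with ha hb
    subst ha hb
    exact iha i a' b' i rfl h1

theorem not_countable_Z : ¬ (Set.univ : Set Z).Countable := by
  intro h
  obtain ⟨f, hf⟩ := h.exists_eq_range ⟨Z.leaf ∅, mem_univ _⟩
  have : Z.node (fun i => f i.2) (fun i => f i.2) ∈ range f := hf ▸ mem_univ _
  obtain ⟨n, hn⟩ := this
  exact node_ne (f n) (fun i => f i.2) (fun i => f i.2) (true, n) rfl hn

/-- The `n`-th pair of the relevant half of the task is good at level `j`. -/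
def Ok (a b : Ix → Z) (j n : ℕ) : Prop :=
  j % 3 ≠ 2 ∧ agree j (pos (a (decide (j % 3 = 0), n))) (pos (Z.node a b)) ∧
    agree j (pos (b (decide (j % 3 = 0), n))) (forb a b)

open Classical in
/-- The `j`-th child of a node. -/
noncomputable def kid (a b : Ix → Z) (j : ℕ) : Z :=
  if h : ∃ n, Ok a b j n then a (decide (j % 3 = 0), h.choose)
  else Z.leaf (near (pos (Z.node a b)) j)

theorem agree_kid (a b : Ix → Z) (j : ℕ) : agree j (pos (kid a b j)) (pos (Z.node a b)) := by
  unfold kid
  split_ifs with h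
  · exact h.choose_spec.2.1
  · exact agree_near _ _

/-- `Mem y k z`: the point `z` is in the `k`-th basic neighbourhood of `y`. -/
inductive Mem : Z → ℕ → Z → Prop
  | self (y : Z) (k : ℕ) : Mem y k y
  | step {a b : Ix → Z} {k j : ℕ} {z : Z} :
      k ≤ j → Mem (kid a b j) j z → Mem (Z.node a b) k z

/-- Basic neighbourhoods. -/
def U (y : Z) (k : ℕ) : Set Z := {z | Mem y k z}

theorem U_anti (y : Z) : Antitone (U y) := by
  intro k k' hk z hz
  cases hz with
  | self => exact Mem.self _ _
  | step h1 h2 => exact Mem.step (hk.trans h1) h2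

theorem mem_U (y : Z) (k : ℕ) : y ∈ U y k := Mem.self y k

theorem Mem.agree {y z : Z} {k : ℕ} (h : Mem y k z) : agree k (pos z) (pos y) := by
  induction h with
  | self => exact agree.refl _ _
  | step h1 _ ih => exact (ih.trans (agree_kid _ _ _)).mono h1

theorem Mem.nbhd {y z : Z} {k : ℕ} (h : Mem y k z) : ∃ m, U z m ⊆ U y k := by
  induction h with
  | self y k => exact ⟨k, subset_rfl⟩
  | step h1 _ ih =>
    obtain ⟨m, hm⟩ := ih
    exact ⟨m, fun w hw => Mem.step h1 (hm hw)⟩

theorem U_leaf (l : L) (k : ℕ) : U (Z.leaf l) k = {Z.leaf l} := by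
  ext z
  constructor
  · intro h
    cases h with
    | self => rfl
  · rintro rfl
    exact Mem.self _ _

theorem U_node (a b : Ix → Z) (k : ℕ) :
    U (Z.node a b) k = insert (Z.node a b) (⋃ j ∈ {j | k ≤ j}, U (kid a b j) j) := by
  ext z
  simp only [mem_insert_iff, mem_iUnion, mem_ofPred_eq, exists_prop]
  constructor
  · intro h
    cases h with
    | self => exact Or.inl rfl
    | step h1 h2 => exact Or.inr ⟨_, h1, h2⟩
  · rintro (rfl | ⟨j, h1, h2⟩)
    · exact Mem.self _ _
    · exact Mem.step h1 h2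

theorem kid_induction {p : Z → Prop} (hl : ∀ l, p (Z.leaf l))
    (hn : ∀ a b, (∀ j, p (kid a b j)) → p (Z.node a b)) (z : Z) : p z := by
  induction z with
  | leaf l => exact hl l
  | node a b iha _ =>
    refine hn a b fun j => ?_
    unfold kid
    split_ifs with h
    · exact iha _
    · exact hl _

instance topZ : TopologicalSpace Z := topOfN U U_anti

theorem isOpen_Z {V : Set Z} : IsOpen V ↔ ∀ y ∈ V, ∃ k, U y k ⊆ V := Iff.rfl

theorem isOpen_U (y : Z) (k : ℕ) : IsOpen (U y k) := isOpen_Z.2 fun _ hz => Mem.nbhd hz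

theorem hasBasis_U (y : Z) : (𝓝 y).HasBasis (fun _ : ℕ => True) (U y) := by
  refine ⟨fun s => ⟨fun hs => ?_, fun ⟨k, _, hk⟩ =>
    mem_of_superset ((isOpen_U y k).mem_nhds (mem_U y k)) hk⟩⟩
  obtain ⟨t, hts, ht, hy⟩ := mem_nhds_iff.1 hs
  obtain ⟨k, hk⟩ := isOpen_Z.1 ht y hy
  exact ⟨k, trivial, hk.trans hts⟩

theorem countable_U (y : Z) : ∀ k, (U y k).Countable := by
  induction y using kid_induction with
  | hl l => intro k; rw [U_leaf]; exact countable_singleton _
  | hn a b ih =>
    intro k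
    rw [U_node]
    exact ((Set.to_countable _).biUnion fun j _ => ih j j).insert _

theorem isCompact_U (y : Z) : ∀ k, IsCompact (U y k) := by
  induction y using kid_induction with
  | hl l => intro k; rw [U_leaf]; exact isCompact_singleton
  | hn a b ih =>
    intro k
    refine isCompact_iff_ultrafilter_le_nhds'.2 fun F hF => ?_
    by_cases h : ∀ m, U (Z.node a b) m ∈ F
    · exact ⟨_, mem_U _ _, (hasBasis_U _).ge_iff.2 fun m _ => h m⟩
    · push Not at h
      obtain ⟨m, hm⟩ := h
      have hK : IsCompact (⋃ j ∈ {j | k ≤ j ∧ j < m}, U (kid a b j) j) :=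
        ((Set.finite_lt_nat m).subset (fun j hj => hj.2)).isCompact_biUnion fun j _ => ih j j
      have hmem : (⋃ j ∈ {j | k ≤ j ∧ j < m}, U (kid a b j) j) ∈ F := by
        filter_upwards [hF, Ultrafilter.compl_mem_iff_notMem.2 hm] with z hz hz'
        cases hz with
        | self => exact absurd (mem_U _ _) hz'
        | @step _ _ _ j _ h1 h2 =>
          refine mem_iUnion₂.2 ⟨j, ⟨h1, ?_⟩, h2⟩
          by_contra hj
          exact hz' (Mem.step (not_lt.1 hj) h2)
      obtain ⟨x, hx, hx'⟩ := isCompact_iff_ultrafilter_le_nhds'.1 hK F hmem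
      obtain ⟨j, hj, hx⟩ := mem_iUnion₂.1 hx
      exact ⟨x, Mem.step hj.1 hx, hx'⟩

theorem exists_leaf_mem (y : Z) (k : ℕ) : ∃ l, Z.leaf l ∈ U y k := by
  cases y with
  | leaf l => exact ⟨l, mem_U _ _⟩
  | node a b =>
    have : ¬ ∃ n, Ok a b (3 * k + 2) n := fun ⟨n, h⟩ => h.1 (by omega)
    refine ⟨near (pos (Z.node a b)) (3 * k + 2), Mem.step (j := 3 * k + 2) (by omega) ?_⟩
    rw [kid, dif_neg this]
    exact Mem.self _ _

theorem continuous_pos : Continuous pos := by
  refine continuous_iff_continuousAt.2 fun y => ?_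
  refine ((hasBasis_U y).tendsto_iff (hasBasis_agree _)).2 fun j _ => ⟨j, trivial, fun z hz => ?_⟩
  exact Mem.agree hz

instance : T2Space Z := T2Space.of_injective_continuous pos_inj continuous_pos

/-- The basic property of nodes built from a large task. -/
theorem node_spec (σ : Bool → ℕ → Z × Z)
    (hσ : Large (closure (range (Prod.map pos pos ∘ σ true)) ∩
      closure (range (Prod.map pos pos ∘ σ false)))) :
    ∃ y : Z, ∃ c : C, (∀ z, pos z ≠ c) ∧
      ∀ β k, ∃ n, (σ β n).1 ∈ U y k ∧ agree k (pos (σ β n).2) c := by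
  let a : Ix → Z := fun i => (σ i.1 i.2).1
  let b : Ix → Z := fun i => (σ i.1 i.2).2
  have hmem : (pos (Z.node a b), forb a b) ∈ taskSet (fun i => (pos (a i), pos (b i))) :=
    exists_sel.choose_spec.1 _ hσ
  refine ⟨Z.node a b, forb a b, fun z => pos_ne_forb z a b, fun β k => ?_⟩
  obtain ⟨j, hj1, hj2, hj3⟩ : ∃ j, k ≤ j ∧ j % 3 ≠ 2 ∧ decide (j % 3 = 0) = β := by
    cases β
    · exact ⟨3 * k + 1, by omega, by omega, by simp⟩
    · exact ⟨3 * k, by omega, by omega, by simp⟩
  have hex : ∃ n, Ok a b j n := by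
    have : (pos (Z.node a b), forb a b) ∈
        closure (range fun n => (pos (a (β, n)), pos (b (β, n)))) := by
      cases β
      · exact hmem.2
      · exact hmem.1
    obtain ⟨_, ⟨n, rfl⟩, h1, h2⟩ := mem_closure_pair.1 this j
    exact ⟨n, hj2, by rw [hj3]; exact h1, by rw [hj3]; exact h2⟩
  refine ⟨hex.choose, Mem.step hj1 ?_, ?_⟩
  · rw [kid, dif_pos hex, hj3]
    exact Mem.self _ _
  · have := hex.choose_spec.2.2
    rw [hj3] at this
    exact this.mono hj1

/-- Disjoint closed sets have almost disjoint Euclidean closures. -/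
theorem countable_inter {A B : Set Z} (hA : IsClosed A) (hB : IsClosed B) (hAB : Disjoint A B) :
    (closure (pos '' A) ∩ closure (pos '' B)).Countable := by
  by_contra hc
  obtain ⟨x₀, hx₀⟩ : (closure (pos '' A) ∩ closure (pos '' B)).Nonempty := by
    by_contra h
    rw [not_nonempty_iff_eq_empty] at h
    exact hc (h ▸ countable_empty)
  have key : ∀ D : Set Z, (closure (pos '' D)).Nonempty → ∃ σ : ℕ → Z × Z,
      (∀ n, (σ n).1 ∈ D) ∧
        closure (pos '' D) ×ˢ Set.univ ⊆ closure (range (Prod.map pos pos ∘ σ)) := by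
    intro D hD
    obtain ⟨_, d, hd, -⟩ := closure_nonempty_iff.1 hD
    obtain ⟨σ, h1, h2⟩ := exists_dense_seq' (Prod.map pos pos) (S := D ×ˢ Set.univ)
      ⟨(d, d), hd, mem_univ _⟩
    refine ⟨σ, fun n => (h1 n).1, subset_trans ?_ (closure_minimal h2 isClosed_closure)⟩
    rintro ⟨x, c⟩ ⟨hx, -⟩
    refine mem_closure_pair.2 fun j => ?_
    obtain ⟨_, ⟨z, hz, rfl⟩, hj⟩ := (mem_closure_iff_nhds_basis (hasBasis_agree x)).1 hx j trivial
    exact ⟨_, ⟨(z, Z.leaf (near c j)), ⟨hz, mem_univ _⟩, rfl⟩, hj, agree_near c j⟩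
  obtain ⟨σA, hA1, hA2⟩ := key A ⟨x₀, hx₀.1⟩
  obtain ⟨σB, hB1, hB2⟩ := key B ⟨x₀, hx₀.2⟩
  obtain ⟨y, c, -, hy⟩ := node_spec (fun β => if β then σA else σB) (by
    refine (large_prod (closed_uncountable (isClosed_closure.inter isClosed_closure) hc)
      (B := Set.univ) fun F hF => ?_).mono ?_
    · obtain ⟨x, hx⟩ := exists_notMem_of_lt hF
      exact ⟨x, mem_univ _, hx⟩
    · rintro p ⟨hp, -⟩
      exact ⟨hA2 ⟨hp.1, mem_univ _⟩, hB2 ⟨hp.2, mem_univ _⟩⟩)
  have h1 : y ∈ A := by
    rw [← hA.closure_eq, mem_closure_iff_nhds_basis (hasBasis_U y)]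
    intro k _
    obtain ⟨n, hn, -⟩ := hy true k
    exact ⟨_, hA1 n, hn⟩
  have h2 : y ∈ B := by
    rw [← hB.closure_eq, mem_closure_iff_nhds_basis (hasBasis_U y)]
    intro k _
    obtain ⟨n, hn, -⟩ := hy false k
    exact ⟨_, hB1 n, hn⟩
  exact Set.disjoint_left.1 hAB h1 h2

/-- Uncountable matchings accumulate at a point whose second coordinate is outside `Z`. -/
theorem matching_acc {T : Set (Z × Z)} (hT : ¬ T.Countable) (h1 : InjOn Prod.fst T)
    (h2 : InjOn Prod.snd T) (h3 : ∀ p ∈ T, p.1 ≠ p.2) :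
    ∃ y : Z, ∃ c : C, (∀ z, pos z ≠ c) ∧
      ∀ k, ∃ p ∈ T, p.1 ∈ U y k ∧ agree k (pos p.2) c := by
  have hne : T.Nonempty := by
    by_contra h
    rw [not_nonempty_iff_eq_empty] at h
    exact hT (h ▸ countable_empty)
  obtain ⟨σ, hσ1, hσ2⟩ := exists_dense_seq' (Prod.map pos pos) hne
  have hinj : Function.Injective (Prod.map pos pos) := pos_inj.prodMap pos_inj
  have hL : Large (closure (Prod.map pos pos '' T)) := by
    refine large_closure (fun h => hT ((countable_of_injective_of_countable_image hinj.injOn h)))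
      ?_ ?_ ?_
    · rintro _ ⟨p, hp, rfl⟩ _ ⟨p', hp', rfl⟩ h
      rw [h1 hp hp' (pos_inj h)]
    · rintro _ ⟨p, hp, rfl⟩ _ ⟨p', hp', rfl⟩ h
      rw [h2 hp hp' (pos_inj h)]
    · rintro _ ⟨p, hp, rfl⟩ h
      exact h3 p hp (pos_inj h)
  obtain ⟨y, c, hc, hy⟩ := node_spec (fun _ => σ) (by
    rw [inter_self]
    exact hL.mono (closure_minimal hσ2 isClosed_closure))
  refine ⟨y, c, hc, fun k => ?_⟩
  obtain ⟨n, hn1, hn2⟩ := hy true k
  exact ⟨σ n, hσ1 n, hn1, hn2⟩

/-- Every uncountable subset of `Z` has an accumulation point. -/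
theorem exists_acc {S : Set Z} (hS : ¬ S.Countable) : ∃ y : Z, ∀ k, (U y k ∩ S).Infinite := by
  let φ : Z → Z := fun s => Z.node (fun _ => s) (fun _ => s)
  have hφ : Function.Injective φ := by
    intro s s' h
    injection h with h _
    exact congrFun h (true, 0)
  have hg : Function.Injective (fun s => (s, φ s)) := fun s s' h => congrArg Prod.fst h
  obtain ⟨y, c, hc, hy⟩ := matching_acc (T := (fun s => (s, φ s)) '' S)
    (fun h => hS (countable_of_injective_of_countable_image hg.injOn h))
    (by rintro _ ⟨s, _, rfl⟩ _ ⟨s', _, rfl⟩ h; rw [show s = s' from h])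
    (by rintro _ ⟨s, _, rfl⟩ _ ⟨s', _, rfl⟩ h; rw [hφ h])
    (by rintro _ ⟨s, _, rfl⟩; exact node_ne s _ _ (true, 0) rfl)
  refine ⟨y, fun k hfin => ?_⟩
  choose j hj using fun s => exists_not_agree (hc (φ s))
  obtain ⟨m, hm⟩ := (hfin.image j).bddAbove
  obtain ⟨_, ⟨s, hs, rfl⟩, h1, h2⟩ := hy (max k m)
  have hs' : s ∈ U y k ∩ S := ⟨U_anti y (le_max_left _ _) h1, hs⟩
  exact hj s (h2.mono ((hm ⟨s, hs', rfl⟩).trans (le_max_right _ _)))

end Pool.Agent.P.MP_5aa89f_gt
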